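import Pool.Agent.P.MP_cd312e_ag.Tr.MW
import Pool.Agent.P.MP_cd312e_ag.Sl2

/-! Gradings, hard Lefschetz, relative monodromy filtrations, polynomial families. -/

set_option autoImplicit false

namespace Pool.Agent.P.MP_cd312e_ag.NL

open Module Polynomial

variable {K V : Type} [Field K] [AddCommGroup V] [Module K V]

/-- The eigenspace for an integer. -/
abbrev Eg (h : End K V) (k : ℤ) : Submodule K V := h.eigenspace (k : K)

theorem mem_Eg {h : End K V} {k : ℤ} {v : V} : v ∈ Eg h k ↔ h v = (k : K) • v :=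
  End.mem_eigenspace_iff

/-- `T` has degree `d` for the grading `h`. -/
def Lo (h T : End K V) (d : ℤ) : Prop := ∀ v, h (T v) = T (h v) + (d : K) • T v

/-- Hard Lefschetz for a lowering operator. -/
def HL (h x : End K V) : Prop := ∀ k : ℕ, Set.BijOn (x ^ k) (Eg h k) (Eg h (-k))

/-- `Fil` is the monodromy filtration of `L` on `Z / B`. -/
structure RelFil (L : End K V) (B Z : Submodule K V) (Fil : ℤ → Submodule K V) : Prop where
  mono : Monotone Fil
  bot : ∃ s, ∀ t ≤ s, Fil t = B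
  top : ∃ s, ∀ t, s ≤ t → Fil t = Z
  map : ∀ s, ∀ v ∈ Fil s, L v ∈ Fil (s - 2)
  inj : ∀ s : ℕ, ∀ v ∈ Fil s, (L ^ s) v ∈ Fil (-s - 1) → v ∈ Fil (s - 1)
  surj : ∀ s : ℕ, ∀ x ∈ Fil (-s), ∃ v ∈ Fil s, x - (L ^ s) v ∈ Fil (-s - 1)

/-- A family of endomorphisms with polynomial matrix entries. -/
def PF (N : K → End K V) : Prop :=
  ∀ (ξ : Dual K V) (v : V), ∃ P : K[X], ∀ μ, ξ (N μ v) = P.eval μ

end Pool.Agent.P.MP_cd312e_ag.NL
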