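import Pool.Agent.P.MP_cd312e_ag.NL.Base

/-! Step GEN. -/

set_option autoImplicit false
set_option linter.unusedSectionVars false

namespace Pool.Agent.P.MP_cd312e_ag.NL

open Module Polynomial RZW Pool.Agent.P.MP_cd312e_ag.Tr Pool.Agent.P.MP_898f40_nt.Bet

variable {K V : Type} [Field K] [CharZero K] [AddCommGroup V] [Module K V] [FiniteDimensional K V]
  {h h1 h2 x y A A' L Z T : End K V} {W M M' : ℤ → Submodule K V} {Fil : ℤ → ℤ → Submodule K V}
  {q Q : ℕ} {w m : ℤ}

theorem PF.mon (i : ℕ) (T : End K V) : PF fun μ : K => μ ^ i • T := by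
  intro ξ v
  exact ⟨X ^ i * C (ξ (T v)), fun μ => by
    rw [eval_mul, eval_pow, eval_X, eval_C, LinearMap.smul_apply, map_smul, smul_eq_mul]⟩

theorem PF.add {N N' : K → End K V} (a : PF N) (b : PF N') : PF fun μ => N μ + N' μ := by
  intro ξ v
  obtain ⟨P, hP⟩ := a ξ v
  obtain ⟨P', hP'⟩ := b ξ v
  exact ⟨P + P', fun μ => by simp [hP, hP']⟩

theorem PF.sum {ι : Type} (s : Finset ι) {N : ι → K → End K V} (a : ∀ i ∈ s, PF (N i)) :
    PF fun μ => ∑ i ∈ s, N i μ := by
  intro ξ v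
  choose! P hP using fun i hi => a i hi ξ v
  refine ⟨∑ i ∈ s, P i, fun μ => ?_⟩
  rw [LinearMap.sum_apply, map_sum, eval_finsetSum]
  exact Finset.sum_congr rfl fun i hi => hP i hi μ

-- expand `N' μ v` in a basis
theorem PF.mul {N N' : K → End K V} (a : PF N) (b : PF N') : PF fun μ => N μ * N' μ := by
  intro ξ v
  let e := Module.finBasis K V
  choose P hP using fun i => a ξ (e i)
  choose P' hP' using fun i => b (e.coord i) v
  refine ⟨∑ i, P' i * P i, fun μ => ?_⟩
  rw [End.mul_apply, ← e.sum_repr (N' μ v), map_sum, map_sum, eval_finsetSum]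
  refine Finset.sum_congr rfl fun i _ => ?_
  rw [map_smul, map_smul, eval_mul, ← hP, ← hP', smul_eq_mul, Basis.coord_apply]

-- `R` = inverse of `N μ0 ^ k` on `Eg h (-k)` composed with `π (-k)`; `Φ μ = R * N μ ^ k * π k + (1 - π k)` is a polynomial family with
-- `Φ μ0 = 1`, so `det (Φ μ)` is the value of a nonzero polynomial (matrix of polynomials in a basis); where `Φ μ` is invertible
-- `N μ ^ k` is injective on `Eg h k` and onto `Eg h (-k)` (apply `π k` to `Φ μ v = R u`; `R` is injective on `Eg h (-k)`)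
theorem gen (G : Grad h) {N : K → End K V} (hN : PF N) (hl : ∀ μ, Lo h (N μ) (-2)) (k : ℕ) (μ0 : K)
    (h0 : Set.BijOn (N μ0 ^ k) (Eg h k) (Eg h (-k))) :
    {μ | ¬ Set.BijOn (N μ ^ k) (Eg h k) (Eg h (-k))}.Finite := by
  classical
  have mp : ∀ μ (j : ℕ) (n : ℤ), ∀ v ∈ Eg h n, (N μ ^ j) v ∈ Eg h (n - 2 * j) := fun μ j n v hv => by
    induction j with
    | zero => simpa using hv
    | succ j ih =>
      rw [mem_Eg] at ih ⊢
      rw [pow_succ', End.mul_apply, hl μ, ih, map_smul, ← add_smul]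
      congr 1; push_cast; ring
  have mp' : ∀ μ, ∀ v ∈ Eg h k, (N μ ^ k) v ∈ Eg h (-k) := fun μ v hv => by
    have := mp μ k k v hv
    rwa [show (k : ℤ) - 2 * k = -k by ring] at this
  have pw : ∀ j : ℕ, PF fun μ => N μ ^ j := fun j => by
    induction j with
    | zero => simpa using PF.mon 0 (1 : End K V)
    | succ j ih => simpa only [pow_succ] using ih.mul hN
  let F : K → (Eg h k →ₗ[K] Eg h (-k)) := fun μ => (N μ ^ k).restrict (mp' μ)
  have hF : ∀ μ, Function.Bijective (F μ) ↔ Set.BijOn (N μ ^ k) (Eg h k) (Eg h (-k)) := fun μ =>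
    ⟨fun b => ⟨mp' μ, fun u hu v hv e => congrArg Subtype.val
        (b.1 (a₁ := ⟨u, hu⟩) (a₂ := ⟨v, hv⟩) (Subtype.ext e)), fun u hu => by
        obtain ⟨v, hv⟩ := b.2 ⟨u, hu⟩
        exact ⟨v, v.2, congrArg Subtype.val hv⟩⟩,
      fun b => ⟨fun u v e => Subtype.ext (b.2.1 u.2 v.2 (congrArg Subtype.val e)), fun u => by
        obtain ⟨v, hv, e⟩ := b.2.2 u.2
        exact ⟨⟨v, hv⟩, Subtype.ext e⟩⟩⟩
  let e := LinearEquiv.ofBijective (F μ0) ((hF μ0).2 h0)
  let b := Module.finBasis K (Eg h k)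
  choose ξ hξ using fun i => LinearMap.exists_extend (b.coord i ∘ₗ e.symm.toLinearMap)
  choose P hP using fun i j => pw k (ξ i) (b j)
  have hd : ∀ μ, (Matrix.of P).det.eval μ = LinearMap.det (e.symm.toLinearMap ∘ₗ F μ) := fun μ => by
    rw [← LinearMap.det_toMatrix b, ← coe_evalRingHom, RingHom.map_det]
    congr 1
    ext i j
    rw [LinearMap.toMatrix_apply, ← Basis.coord_apply]
    exact (hP i j μ).symm.trans (LinearMap.congr_fun (hξ i) (F μ (b j)))
  have h1 : (Matrix.of P).det ≠ 0 := fun z => by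
    have := hd μ0
    rw [z, eval_zero, show e.symm.toLinearMap ∘ₗ F μ0 = 1 from
      LinearMap.ext fun v => e.symm_apply_apply v, map_one] at this
    exact zero_ne_one this
  refine (finite_setOfPred_isRoot h1).subset fun μ hμ => ?_
  by_contra hn
  refine hμ ((hF μ).1 ?_)
  have u : IsUnit (e.symm.toLinearMap ∘ₗ F μ) :=
    (LinearMap.isUnit_iff_isUnit_det _).2 (Ne.isUnit (by rw [← hd]; exact hn))
  exact (Function.Bijective.of_comp_iff' e.symm.bijective _).1 ((End.isUnit_iff _).1 u)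

end Pool.Agent.P.MP_cd312e_ag.NL
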