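import Pool.Agent.P.MP_cd312e_ag.NL.Base

/-! Step SPL. -/

set_option autoImplicit false
set_option linter.unusedSectionVars false

namespace Pool.Agent.P.MP_cd312e_ag.NL

open Module Polynomial RZW Pool.Agent.P.MP_cd312e_ag.Tr Pool.Agent.P.MP_898f40_nt.Bet

variable {K V : Type} [Field K] [CharZero K] [AddCommGroup V] [Module K V] [FiniteDimensional K V]
  {h h1 h2 x y A A' L Z T : End K V} {W M M' : ℤ → Submodule K V} {Fil : ℤ → ℤ → Submodule K V}
  {q Q : ℕ} {w m : ℤ}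

namespace SPLx

theorem sum_stab {S : Submodule K V} (hS : ∀ v ∈ S, h v ∈ S) (I : Finset ℤ) : ∀ f : ℤ → V,
    (∀ k, h (f k) = (k : K) • f k) → ∑ k ∈ I, f k ∈ S → ∀ k ∈ I, f k ∈ S := by
  induction I using Finset.induction_on with
  | empty => intro f _ _ k hk; exact absurd hk (Finset.notMem_empty k)
  | insert a I ha ih =>
    intro f hf hs
    have h1 := S.sub_mem (hS _ hs) (S.smul_mem (a : K) hs)
    have e : h (∑ k ∈ insert a I, f k) - (a : K) • ∑ k ∈ insert a I, f k =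
        ∑ k ∈ I, ((k : K) - a) • f k := by
      rw [map_sum, Finset.smul_sum, ← Finset.sum_sub_distrib, Finset.sum_insert ha, hf, sub_self,
        zero_add]
      exact Finset.sum_congr rfl fun k _ => by rw [hf, sub_smul]
    rw [e] at h1
    have h2 : ∀ k ∈ I, f k ∈ S := fun k hk => by
      have h3 := ih (fun k => ((k : K) - a) • f k) (fun k => by rw [map_smul, hf, smul_comm]) h1 k hk
      refine (S.smul_mem_iff (sub_ne_zero.2 fun e => ha ?_)).1 h3
      rwa [← Int.cast_injective e]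
    intro k hk
    rcases Finset.mem_insert.1 hk with rfl | hk
    · rw [Finset.sum_insert ha] at hs
      exact (S.add_mem_iff_left (S.sum_mem h2)).1 hs
    · exact h2 k hk

theorem exists_proj (S : Submodule K V) : ∃ P : End K V, (∀ v, P v ∈ S) ∧ ∀ v ∈ S, P v = v := by
  obtain ⟨g, hg⟩ := S.subtype.exists_leftInverse_of_injective S.ker_subtype
  exact ⟨S.subtype ∘ₗ g, fun v => (g v).2, fun v hv =>
    congrArg Subtype.val (LinearMap.congr_fun hg ⟨v, hv⟩)⟩

end SPLx

-- if a finite sum of eigenvectors for distinct integers lies in `S` then each does (induction, apply `h - k`)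
theorem grad_stab (G : Grad h) {S : Submodule K V} (hS : ∀ v ∈ S, h v ∈ S) (k : ℤ) :
    ∀ v ∈ S, G.π k v ∈ S := by
  intro v hv
  by_cases hk : k ∈ Finset.Icc (-(G.M : ℤ)) G.M
  · exact SPLx.sum_stab hS _ (fun k => G.π k v) (fun k => G.wt k v) ((G.sum v).symm ▸ hv) k hk
  · rw [G.bd k _ (G.wt k v) (not_le.1 fun e => hk (Finset.mem_Icc.2 (abs_le.1 e)))]
    exact S.zero_mem

-- descending induction: `(j - i) • v ∈ M (i - 1)`
theorem desc (hM : ∀ i, ∀ v ∈ M i, h v - ((w + i : ℤ) : K) • v ∈ M (i - 1)) {j i i' : ℤ} {v : V}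
    (hv : v ∈ Eg h j) (hi : v ∈ M i) (hi' : i' ≤ i) (hj : ∀ k, i' < k → k ≤ i → w + k ≠ j) :
    v ∈ M i' := by
  induction i, hi' using Int.le_induction with
  | base => exact hi
  | succ i h1 ih =>
    refine ih ?_ fun k h2 h3 => hj k h2 (by omega)
    have h4 := hM _ v hi
    rw [mem_Eg.1 hv, ← sub_smul, add_sub_cancel_right] at h4
    exact ((M i).smul_mem_iff (sub_ne_zero.2 fun e =>
      hj (i + 1) (by omega) le_rfl (Int.cast_injective e).symm)).1 h4

-- `W t ≤ ⨆ s ≤ t, Eg h s` by induction on `t`: `h - t` maps `⨆ s < t, Eg h s` onto itself; then `exists_grad`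
theorem grad_of_fil (hb : ∃ s, W s = ⊥) (ht : ∃ s, W s = ⊤) (hm : Monotone W)
    (hW : ∀ s, ∀ v ∈ W s, h v - (s : K) • v ∈ W (s - 1)) : Nonempty (Grad h) := by
  obtain ⟨b, hb⟩ := hb
  obtain ⟨c, hc⟩ := ht
  have key : ∀ t, b ≤ t → W t ≤ ⨆ s ≤ t, Eg h s := fun t ht => by
    induction t, ht using Int.le_induction with
    | base => rw [hb]; exact bot_le
    | succ t _ ih =>
      intro v hv
      have h1 : (⨆ s ≤ t, Eg h s) ≤ (⨆ s ≤ t, Eg h s).map (h - ((t + 1 : ℤ) : K) • 1) :=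
        iSup₂_le fun s hs u hu => by
          have h2 : (s : K) - ((t + 1 : ℤ) : K) ≠ 0 :=
            sub_ne_zero.2 fun e => by have := Int.cast_injective e; omega
          refine ⟨((s : K) - ((t + 1 : ℤ) : K))⁻¹ • u, Submodule.smul_mem _ _
            (le_iSup₂_of_le (f := fun s (_ : s ≤ t) => Eg h s) s hs le_rfl hu), ?_⟩
          rw [map_smul, LinearMap.sub_apply, LinearMap.smul_apply, End.one_apply, mem_Eg.1 hu,
            ← sub_smul, smul_smul, inv_mul_cancel₀ h2, one_smul]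
      have h3 := hW _ v hv
      rw [add_sub_cancel_right] at h3
      obtain ⟨u, h4, h5⟩ := h1 (ih h3)
      rw [LinearMap.sub_apply, LinearMap.smul_apply, End.one_apply] at h5
      have h6 : v - u ∈ Eg h (t + 1) := mem_Eg.2 (by
        rw [map_sub, smul_sub, sub_eq_sub_iff_sub_eq_sub, h5])
      have h7 := Submodule.add_mem _
        (le_iSup₂_of_le (f := fun s (_ : s ≤ t + 1) => Eg h s) (t + 1) le_rfl le_rfl h6)
        ((iSup₂_le fun s hs => le_iSup₂_of_le (f := fun s (_ : s ≤ t + 1) => Eg h s) s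
          (by omega) le_rfl : (⨆ s ≤ t, Eg h s) ≤ _) h4)
      rwa [sub_add_cancel] at h7
  refine exists_grad h (top_le_iff.1 ?_)
  rw [← hc]
  exact (hm (le_max_right b c)).trans ((key _ (le_max_left b c)).trans
    (iSup₂_le fun s _ => le_iSup (fun k : ℤ => h.eigenspace (k : K)) s))

-- `W b = ⊥`, `W c = ⊤`, `b ≤ c`; `P s` any projection onto `W s`; `h' = c - ∑ s ∈ Ico b c, P s` has the last property; then average:
-- `h1 = ∑ k, π k * h' * π k` (`grad_stab`). `grad_of_fil`; for `h - h1` the vectors `π k (π1 s v)` are eigenvectors (`Grad.comm0`)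
theorem split (G : Grad h) (hb : ∃ s, W s = ⊥) (ht : ∃ s, W s = ⊤) (hm : Monotone W)
    (hW : ∀ s, ∀ v ∈ W s, h v ∈ W s) :
    ∃ h1 : End K V, h1 * h = h * h1 ∧ Nonempty (Grad h1) ∧ Nonempty (Grad (h - h1)) ∧
      ∀ s, ∀ v ∈ W s, h1 v - (s : K) • v ∈ W (s - 1) := by
  obtain ⟨b, hb0⟩ := id hb
  obtain ⟨c0, hc0⟩ := id ht
  obtain ⟨c, hc⟩ : ∃ c, W c = ⊤ ∧ b ≤ c :=
    ⟨max b c0, top_le_iff.1 (hc0 ▸ hm (le_max_right b c0)), le_max_left _ _⟩
  choose P hP hP' using fun s => SPLx.exists_proj (W s)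
  obtain ⟨h', hh⟩ : ∃ h' : End K V, ∀ s, ∀ v ∈ W s, h' v - (s : K) • v ∈ W (s - 1) := by
    refine ⟨(c : K) • 1 - ∑ s ∈ Finset.Ico b c, P s, fun t v hv => ?_⟩
    rcases le_or_gt t b with h1 | h1
    · have h2 : v = 0 := (Submodule.mem_bot K).1 (hb0 ▸ hm h1 hv)
      rw [h2, map_zero, smul_zero, sub_zero]; exact Submodule.zero_mem _
    rcases lt_or_ge c t with h3 | h3
    · exact hm (show c ≤ t - 1 by omega) (hc.1 ▸ Submodule.mem_top)
    have e1 : ∑ s ∈ Finset.Ico t c, P s v = ((c : K) - t) • v := by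
      rw [Finset.sum_congr rfl fun s hs => hP' s v (hm (Finset.mem_Ico.1 hs).1 hv),
        Finset.sum_const, Int.card_Ico, ← Nat.cast_smul_eq_nsmul K, ← Int.cast_natCast,
        Int.toNat_of_nonneg (by omega), Int.cast_sub]
    rw [LinearMap.sub_apply, LinearMap.smul_apply, End.one_apply, LinearMap.sum_apply,
      ← Finset.Ico_union_Ico_eq_Ico h1.le h3,
      Finset.sum_union (Finset.Ico_disjoint_Ico_consecutive b t c), e1]
    have h4 := (W (t - 1)).neg_mem ((W (t - 1)).sum_mem (t := Finset.Ico b t) (f := fun s => P s v)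
      fun s hs => hm (show s ≤ t - 1 by have := (Finset.mem_Ico.1 hs).2; omega) (hP s v))
    have e2 : (c : K) • v - (∑ s ∈ Finset.Ico b t, P s v + ((c : K) - t) • v) - (t : K) • v =
        -∑ s ∈ Finset.Ico b t, P s v := by rw [sub_smul]; abel
    rwa [e2]
  obtain ⟨h1, e⟩ : ∃ h1 : End K V, ∀ v,
      h1 v = ∑ k ∈ Finset.Icc (-(G.M : ℤ)) G.M, G.π k (h' (G.π k v)) :=
    ⟨∑ k ∈ Finset.Icc (-(G.M : ℤ)) G.M, G.π k * h' * G.π k, fun v => by
      simp only [LinearMap.sum_apply, End.mul_apply]⟩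
  have cm : ∀ v, h (h1 v) = h1 (h v) := fun v => by
    rw [e, e, map_sum]
    exact Finset.sum_congr rfl fun k _ => by
      rw [G.wt, G.comm0 h (fun _ => rfl), G.wt, map_smul, map_smul]
  have hl : ∀ s, ∀ v ∈ W s, h1 v - (s : K) • v ∈ W (s - 1) := fun s v hv => by
    have e3 : h1 v - (s : K) • v = ∑ k ∈ Finset.Icc (-(G.M : ℤ)) G.M,
        G.π k (h' (G.π k v) - (s : K) • G.π k v) := by
      conv_lhs => rw [e, ← congrArg ((s : K) • ·) (G.sum v), Finset.smul_sum,
        ← Finset.sum_sub_distrib]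
      exact Finset.sum_congr rfl fun k _ => by rw [map_sub, map_smul, G.same k _ (G.wt k v)]
    rw [e3]
    exact Submodule.sum_mem _ fun k _ =>
      grad_stab G (hW _) k _ (hh s _ (grad_stab G (hW s) k v hv))
  obtain ⟨G1⟩ := grad_of_fil hb ht hm hl
  refine ⟨h1, LinearMap.ext fun v => (cm v).symm, ⟨G1⟩,
    exists_grad _ (top_le_iff.1 fun v _ => ?_), hl⟩
  rw [← G1.sum v]
  refine Submodule.sum_mem _ fun s _ => ?_
  rw [← G.sum (G1.π s v)]
  refine Submodule.sum_mem _ fun k _ =>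
    le_iSup (fun k : ℤ => (h - h1).eigenspace (k : K)) (k - s) (End.mem_eigenspace_iff.2 ?_)
  rw [LinearMap.sub_apply, G.wt, ← G.comm0 h1 cm, G1.wt, map_smul, Int.cast_sub, sub_smul]

end Pool.Agent.P.MP_cd312e_ag.NL
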