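import Pool.Agent.P.MP_cd312e_ag.NL.Base
import Pool.Agent.P.MP_cd312e_ag.NL.TSPL

/-! Step HLL. -/

set_option autoImplicit false
set_option linter.unusedSectionVars false

namespace Pool.Agent.P.MP_cd312e_ag.NL

open Module Polynomial RZW Pool.Agent.P.MP_cd312e_ag.Tr Pool.Agent.P.MP_898f40_nt.Bet

variable {K V : Type} [Field K] [CharZero K] [AddCommGroup V] [Module K V] [FiniteDimensional K V]
  {h h1 h2 x y A A' L Z T : End K V} {W M M' : ℤ → Submodule K V} {Fil : ℤ → ℤ → Submodule K V}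
  {q Q : ℕ} {w m : ℤ}

namespace HLLx

theorem eg_le (ht : ∃ s, W s = ⊤) (hm : Monotone W)
    (hW : ∀ s, ∀ v ∈ W s, h1 v - (s : K) • v ∈ W (s - 1)) {s : ℤ} {v : V} (hv : v ∈ Eg h1 s) :
    v ∈ W s := by
  obtain ⟨c, hc⟩ := ht
  refine desc (w := 0) (i := max c s) (by simpa using hW) hv (hm (le_max_left _ _) ?_)
    (le_max_right _ _) fun k a _ => by omega
  rw [hc]
  trivial

theorem eg_zero (hb : ∃ s, W s = ⊥) (hm : Monotone W)
    (hW : ∀ s, ∀ v ∈ W s, h1 v - (s : K) • v ∈ W (s - 1)) {s t : ℤ} {v : V} (hv : v ∈ Eg h1 s)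
    (hv' : v ∈ W t) (ht : t < s) : v = 0 := by
  obtain ⟨c, hc⟩ := hb
  have := hm (min_le_left c t) (desc (w := 0) (i' := min c t) (by simpa using hW) hv hv'
    (min_le_right _ _) fun k _ a => by omega)
  rwa [hc] at this

theorem stab {c : ℤ → K} (hm : Monotone W) (hW : ∀ s, ∀ v ∈ W s, h1 v - c s • v ∈ W (s - 1))
    (s : ℤ) : ∀ v ∈ W s, h1 v ∈ W s := fun v hv => by
  have := add_mem (hm (show s - 1 ≤ s by omega) (hW s v hv)) ((W s).smul_mem (c s) hv)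
  rwa [sub_add_cancel] at this

theorem kill (G1 : Grad h1) (hb : ∃ s, W s = ⊥) (hm : Monotone W)
    (hW : ∀ s, ∀ v ∈ W s, h1 v - (s : K) • v ∈ W (s - 1)) {s t : ℤ} {v : V}
    (hv : v ∈ W t) (ht : t < s) : G1.π s v = 0 :=
  eg_zero hb hm hW (mem_Eg.2 (G1.wt s v)) (grad_stab G1 (stab hm hW t) s v hv) ht

theorem lo_pow {d : ℤ} (a : Lo h T d) (k : ℕ) : Lo h (T ^ k) (d * k) := by
  induction k with
  | zero => intro v; simp
  | succ k ih =>
    intro v
    rw [pow_succ', End.mul_apply, End.mul_apply, a, ih, map_add, map_smul]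
    push_cast
    module

theorem lo_eg {d j j' : ℤ} (a : Lo h T d) {v : V} (hv : v ∈ Eg h j) (e : j' = j + d) :
    T v ∈ Eg h j' := by
  rw [mem_Eg, a, mem_Eg.1 hv, map_smul, e]
  push_cast
  module

theorem pow_sub {d : ℤ} (hm : Monotone W) (hx : ∀ s, ∀ v ∈ W s, x v ∈ W (s - d))
    (hT : ∀ s, ∀ v ∈ W s, T v - x v ∈ W (s - d - 1)) (k : ℕ) (s : ℤ) {v : V} (hv : v ∈ W s) :
    (x ^ k) v ∈ W (s - d * k) ∧ (T ^ k) v - (x ^ k) v ∈ W (s - d * k - 1) := by
  induction k with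
  | zero => simpa using hv
  | succ k ih =>
    have e1 : s - d * (k + 1 : ℕ) = s - d * k - d := by push_cast; ring
    have a1 := hT _ _ ih.1
    have a2 := add_mem (hm (show s - d * k - 1 - d - 1 ≤ s - d * k - 1 - d by omega) (hT _ _ ih.2))
      (hx _ _ ih.2)
    rw [sub_add_cancel, sub_right_comm, map_sub] at a2
    rw [e1, pow_succ', pow_succ', End.mul_apply, End.mul_apply]
    refine ⟨hx _ _ ih.1, ?_⟩
    have := add_mem a2 a1
    rwa [sub_add_sub_cancel] at this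

theorem inj {S : Submodule K V} (a : ∀ v ∈ S, T v = 0 → v = 0) : Set.InjOn T S :=
  fun u hu v hv e => sub_eq_zero.1 (a _ (sub_mem hu hv) (by rw [map_sub, e, sub_self]))

theorem rb {B Z : Submodule K V} {F : ℤ → Submodule K V} (a : RelFil y B Z F) (i : ℤ) :
    B ≤ F i ∧ F i ≤ Z := by
  obtain ⟨b, hb⟩ := a.bot
  obtain ⟨c, hc⟩ := a.top
  exact ⟨hb _ (min_le_left b i) ▸ a.mono (min_le_right b i),
    hc _ (le_max_left c i) ▸ a.mono (le_max_right c i)⟩

theorem dn {B Z : Submodule K V} {F : ℤ → Submodule K V} (a : RelFil y B Z F)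
    (hs : ∀ i, ∀ v ∈ F i, h v - ((w + i : ℤ) : K) • v ∈ F (i - 1)) {i : ℤ} {v : V}
    (hv : v ∈ Eg h (w + i)) : (v ∈ Z → v ∈ F i) ∧ (v ∈ F (i - 1) → v ∈ B) := by
  obtain ⟨b, hb⟩ := a.bot
  obtain ⟨c, hc⟩ := a.top
  refine ⟨fun hz => desc (i := max c i) hs hv ?_ (le_max_right _ _) fun k _ _ => by omega,
    fun hz => ?_⟩
  · rwa [hc _ (le_max_left _ _)]
  · rw [← hb _ (min_le_left b (i - 1))]
    exact desc hs hv hz (min_le_right _ _) fun k _ _ => by omega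

end HLLx

-- `x0 ^ k v - x ^ k v ∈ W (s - 2 k - 1)` on `W s` (induction); a vector of `Eg h1 s` in `W (s - 1)` is zero, `Eg h1 s ≤ W s` (`desc` with `w = 0`);
-- for surjectivity replace `v` by `π k v`
theorem hl_x (G1 : Grad h1) (hx : IsMonFil x W)
    (hW : ∀ s, ∀ v ∈ W s, h1 v - (s : K) • v ∈ W (s - 1)) (l1 : Lo h1 T (-2))
    (hT : ∀ s, ∀ v ∈ W s, T v - x v ∈ W (s - 3)) : HL h1 T := by
  intro k
  have lk := HLLx.lo_pow l1 k
  have ps : ∀ v ∈ W k, (T ^ k) v - (x ^ k) v ∈ W (-k - 1) := fun v hv => by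
    have := (HLLx.pow_sub (d := 2) hx.mono hx.map (fun s v hv => by
      rw [show s - 2 - 1 = s - 3 by ring]; exact hT s v hv) k k hv).2
    rwa [show (k : ℤ) - 2 * k = -k by ring] at this
  refine ⟨fun v hv => HLLx.lo_eg lk hv (by ring), HLLx.inj fun v hv e => ?_, fun u hu => ?_⟩
  · have h1 := HLLx.eg_le hx.top hx.mono hW hv
    have h2 := ps v h1
    rw [e, zero_sub, neg_mem_iff] at h2
    exact HLLx.eg_zero hx.bot hx.mono hW hv (hx.inj k v h1 h2) (by omega)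
  · obtain ⟨v, hv, e⟩ := hx.surj k u (HLLx.eg_le hx.top hx.mono hW hu)
    have h2 := sub_mem e (ps v hv)
    rw [sub_sub_sub_cancel_right] at h2
    have h3 := HLLx.kill G1 hx.bot hx.mono hW h2 (show -(k : ℤ) - 1 < -k by omega)
    rw [map_sub, G1.same _ _ (mem_Eg.1 hu), G1.comm' _ _ lk,
      show -(k : ℤ) - -2 * k = k by ring] at h3
    exact ⟨_, mem_Eg.2 (G1.wt k v), (sub_eq_zero.1 h3).symm⟩

-- components `v s = π1 s v ∈ Eg h1 s ⊓ Eg h (s + b)`; `T ^ b v - y ^ b v ∈ W (s - 1)` on `W s`; `desc` for `M = Fil s`, `w = s`: a vector of `W s` of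
-- weight `s + b` lies in `Fil s b`, a vector of `Fil s (b - 1)` of weight `s + b` lies in `W (s - 1)`.
-- Onto: for `u ∈ Eg h1 s ⊓ Eg h (s - b)` take `v` from `surj`, apply the projection of `h` of weight `s - b` (`grad_stab`, `Grad.comm`), use `π1 s (π (s + b) v)`
theorem hl_y (G : Grad h) (G1 : Grad h1) (c : h1 * h = h * h1) (hb : ∃ s, W s = ⊥)
    (ht : ∃ s, W s = ⊤) (hm : Monotone W) (hW : ∀ s, ∀ v ∈ W s, h1 v - (s : K) • v ∈ W (s - 1))
    (hF : ∀ s, RelFil y (W (s - 1)) (W s) (Fil s))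
    (hs : ∀ s i, ∀ v ∈ Fil s i, h v - ((s + i : ℤ) : K) • v ∈ Fil s (i - 1)) (ly : Lo h y (-2))
    (l1 : Lo h1 T 0) (l2 : Lo h T (-2)) (hT : ∀ s, ∀ v ∈ W s, T v - y v ∈ W (s - 1)) :
    HL (h - h1) T := by
  intro b
  have c' : ∀ v, h1 (h v) = h (h1 v) := fun v => LinearMap.congr_fun c v
  have l3 : Lo (h - h1) T (-2) := fun v => by
    rw [LinearMap.sub_apply, LinearMap.sub_apply, l1, l2, map_sub]
    push_cast
    module
  have k1 : ∀ s v, G1.π s ((T ^ b) v) = (T ^ b) (G1.π s v) := fun s v =>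
    G1.comm0 _ (fun v => by simpa using HLLx.lo_pow l1 b v) s v
  have k2 : ∀ (s j : ℤ) v, v ∈ Eg (h - h1) j → G1.π s v ∈ Eg h (s + j) := fun s j v hv => by
    have a1 := G1.comm0 (h - h1) (fun v => by simp [c']) s v
    rw [mem_Eg.1 hv, map_smul, LinearMap.sub_apply, G1.wt] at a1
    rw [mem_Eg, ← sub_add_cancel (h _) ((s : K) • G1.π s v), ← a1]
    push_cast
    module
  have ps : ∀ s, ∀ v ∈ W s, (T ^ b) v - (y ^ b) v ∈ W (s - 1) := fun s v hv => by
    have := (HLLx.pow_sub (d := 0) (x := y) hm (fun s v hv => by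
      obtain ⟨t, ht⟩ := (hF s).top
      rw [sub_zero]
      exact (HLLx.rb (hF s) _).2 ((hF s).map t v (by rwa [ht t le_rfl]))) (by simpa using hT)
      b s hv).2
    simpa using this
  refine ⟨fun v hv => HLLx.lo_eg (HLLx.lo_pow l3 b) hv (by ring), HLLx.inj fun v hv e => ?_,
    fun u hu => ?_⟩
  · rw [← G1.sum v]
    refine Finset.sum_eq_zero fun s _ => ?_
    have a1 := mem_Eg.2 (G1.wt s v)
    have a2 := HLLx.eg_le ht hm hW a1
    have a3 := HLLx.dn (hF s) (hs s) (k2 s b v hv)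
    have a4 := ps s _ a2
    rw [← k1, e, map_zero, zero_sub, neg_mem_iff] at a4
    exact HLLx.eg_zero hb hm hW a1 (a3.2 ((hF s).inj b _ (a3.1 a2) ((HLLx.rb (hF s) _).1 a4)))
      (by omega)
  · change u ∈ (Eg (h - h1) b).map (T ^ b)
    rw [← G1.sum u]
    refine Submodule.sum_mem _ fun s _ => ?_
    have a1 := mem_Eg.2 (G1.wt s u)
    have a0 := k2 s _ u hu
    obtain ⟨v, hv, e⟩ := (hF s).surj b _
      ((HLLx.dn (hF s) (hs s) a0).1 (HLLx.eg_le ht hm hW a1))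
    have a2 := sub_mem e ((HLLx.rb (hF s) (-b - 1)).1 (ps s v ((HLLx.rb (hF s) _).2 hv)))
    rw [sub_sub_sub_cancel_right] at a2
    have a3 := HLLx.kill G1 hb hm hW ((HLLx.dn (hF s) (hs s) (mem_Eg.2 (G.wt (s + -b) _))).2
      (grad_stab G (HLLx.stab (hF s).mono (hs s) _) _ _ a2)) (show s - 1 < s by omega)
    rw [map_sub, map_sub, G.same _ _ (mem_Eg.1 a0), G1.same _ _ (mem_Eg.1 a1),
      G.comm' _ _ (HLLx.lo_pow l2 b), k1, show s + -(b : ℤ) - -2 * b = s + b by ring] at a3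
    refine ⟨_, ?_, (sub_eq_zero.1 a3).symm⟩
    change _ ∈ Eg (h - h1) b
    rw [mem_Eg, LinearMap.sub_apply, G1.wt, ← G1.comm0 h c', G.wt, map_smul]
    push_cast
    module

end Pool.Agent.P.MP_cd312e_ag.NL
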