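import Pool.Agent.P.MP_cd312e_ag.NL.Base
import Pool.Agent.P.MP_cd312e_ag.NL.TSPL

/-! Step LEAD. -/

set_option autoImplicit false
set_option linter.unusedSectionVars false

namespace Pool.Agent.P.MP_cd312e_ag.NL

open Module Polynomial RZW Pool.Agent.P.MP_cd312e_ag.Tr Pool.Agent.P.MP_898f40_nt.Bet

variable {K V : Type} [Field K] [CharZero K] [AddCommGroup V] [Module K V] [FiniteDimensional K V]
  {h h1 h2 x y A A' L Z T : End K V} {W M M' : ℤ → Submodule K V} {Fil : ℤ → ℤ → Submodule K V}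
  {q Q : ℕ} {w m : ℤ}

namespace LEADx

theorem ext_eig (G : Grad h) {f g : End K V}
    (H : ∀ (k : ℤ) (v : V), h v = (k : K) • v → f v = g v) : f = g := by
  ext v
  rw [← G.sum v, map_sum, map_sum]
  exact Finset.sum_congr rfl fun k _ => H k _ (G.wt k v)

theorem sum_eig (G : Grad h) (F : ℤ → End K V) {s : ℤ} {v : V} (hv : h v = (s : K) • v) :
    ∑ k ∈ Finset.Icc (-(G.M : ℤ)) G.M, F k (G.π k v) = F s v := by
  rw [Finset.sum_eq_single s]
  · rw [G.same s v hv]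
  · intro k _ hk
    rw [G.ne k s v hv hk, map_zero]
  · intro hs
    have : v = 0 := by
      refine G.bd s v hv ?_
      rw [Finset.mem_Icc] at hs
      rcases abs_cases s with h | h <;> omega
    simp [this]

theorem hW0 (hW : ∀ s, ∀ v ∈ W s, h1 v - (s : K) • v ∈ W (s - 1)) :
    ∀ i, ∀ v ∈ W i, h1 v - (((0 : ℤ) + i : ℤ) : K) • v ∈ W (i - 1) := by
  intro i v hv
  rw [zero_add]
  exact hW i v hv

theorem eig_le (ht : ∃ s, W s = ⊤) (hm : Monotone W)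
    (hW : ∀ s, ∀ v ∈ W s, h1 v - (s : K) • v ∈ W (s - 1)) {s : ℤ} {v : V}
    (hv : h1 v = (s : K) • v) : v ∈ W s := by
  obtain ⟨c, hc⟩ := ht
  have h0 : v ∈ W c := hc ▸ Submodule.mem_top
  rcases le_total c s with h | h
  · exact hm h h0
  · exact desc (hW0 hW) (mem_Eg.2 hv) h0 h fun k hk _ => by omega

theorem kill (G1 : Grad h1) (hb : ∃ s, W s = ⊥) (hm : Monotone W)
    (hW : ∀ s, ∀ v ∈ W s, h1 v - (s : K) • v ∈ W (s - 1)) {s t : ℤ} (hst : s < t) {v : V}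
    (hv : v ∈ W s) : G1.π t v = 0 := by
  obtain ⟨b, hb⟩ := hb
  have h0 : G1.π t v ∈ W s := by
    refine grad_stab G1 (fun u hu => ?_) t v hv
    have h2 := (W s).add_mem (hm (by omega : s - 1 ≤ s) (hW s u hu)) ((W s).smul_mem (s : K) hu)
    simpa using h2
  have h3 : G1.π t v ∈ W b := by
    rcases le_total s b with h | h
    · exact hm h h0
    · exact desc (hW0 hW) (mem_Eg.2 (G1.wt t v)) h0 h fun k _ hk => by omega
  rw [hb] at h3
  exact (Submodule.mem_bot K).1 h3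

theorem sub_pi (G1 : Grad h1) (hb : ∃ s, W s = ⊥) (ht : ∃ s, W s = ⊤) (hm : Monotone W)
    (hW : ∀ s, ∀ v ∈ W s, h1 v - (s : K) • v ∈ W (s - 1)) {s : ℤ} {v : V} (hv : v ∈ W s) :
    G1.π s v - v ∈ W (s - 1) := by
  have h0 : G1.π s v - v =
      ∑ k ∈ Finset.Icc (-(G1.M : ℤ)) G1.M, (G1.π s (G1.π k v) - G1.π k v) := by
    rw [Finset.sum_sub_distrib, ← map_sum, G1.sum]
  rw [h0]
  refine Submodule.sum_mem _ fun k _ => ?_
  rcases lt_trichotomy k s with h | h | h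
  · rw [G1.ne s k _ (G1.wt k v) (by omega), zero_sub]
    exact (W (s - 1)).neg_mem (hm (by omega : k ≤ s - 1) (eig_le ht hm hW (G1.wt k v)))
  · subst h
    rw [G1.same k _ (G1.wt k v), sub_self]
    exact (W (k - 1)).zero_mem
  · rw [kill G1 hb hm hW h hv]
    simp

/-- The torus action. -/
noncomputable def Cm (G1 : Grad h1) (μ : K) : End K V :=
  ∑ s ∈ Finset.Icc (-(G1.M : ℤ)) G1.M, μ ^ (-s) • G1.π s

theorem Cm_apply (G1 : Grad h1) (μ : K) (v : V) :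
    Cm G1 μ v = ∑ s ∈ Finset.Icc (-(G1.M : ℤ)) G1.M, μ ^ (-s) • G1.π s v := by
  simp [Cm, LinearMap.sum_apply]

theorem Cm_eig (G1 : Grad h1) (μ : K) {s : ℤ} {v : V} (hv : h1 v = (s : K) • v) :
    Cm G1 μ v = μ ^ (-s) • v := by
  rw [Cm_apply]
  simpa using sum_eig G1 (fun k => μ ^ (-k) • (1 : End K V)) hv

theorem Cm_mul (G1 : Grad h1) {μ : K} (hμ : μ ≠ 0) : Cm G1 μ * Cm G1 μ⁻¹ = 1 := by
  refine ext_eig G1 fun k v hv => ?_
  rw [End.mul_apply, Cm_eig G1 _ hv, map_smul, Cm_eig G1 _ hv, smul_smul, ← mul_zpow,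
    inv_mul_cancel₀ hμ, one_zpow, one_smul, End.one_apply]

/-- The family. -/
noncomputable def Nm (G1 : Grad h1) (T : End K V) (d : ℕ) (μ : K) : End K V :=
  ∑ s ∈ Finset.Icc (-(G1.M : ℤ)) G1.M, ∑ t ∈ Finset.Icc (-(G1.M : ℤ)) G1.M,
    μ ^ (s - t - d).toNat • (G1.π t * T * G1.π s)

theorem Nm_apply (G1 : Grad h1) (T : End K V) (d : ℕ) (μ : K) (v : V) :
    Nm G1 T d μ v = ∑ s ∈ Finset.Icc (-(G1.M : ℤ)) G1.M, ∑ t ∈ Finset.Icc (-(G1.M : ℤ)) G1.M,
      μ ^ (s - t - d).toNat • G1.π t (T (G1.π s v)) := by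
  simp [Nm, LinearMap.sum_apply]

theorem Nm_eig (G1 : Grad h1) (T : End K V) (d : ℕ) (μ : K) {s : ℤ} {v : V}
    (hv : h1 v = (s : K) • v) :
    Nm G1 T d μ v =
      ∑ t ∈ Finset.Icc (-(G1.M : ℤ)) G1.M, μ ^ (s - t - d).toNat • G1.π t (T v) := by
  rw [Nm_apply]
  simpa [LinearMap.sum_apply] using sum_eig G1
    (fun k => ∑ t ∈ Finset.Icc (-(G1.M : ℤ)) G1.M, μ ^ (k - t - d).toNat • (G1.π t * T)) hv

theorem Nm_zero (G1 : Grad h1) (hb : ∃ s, W s = ⊥) (hm : Monotone W)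
    (hW : ∀ s, ∀ v ∈ W s, h1 v - (s : K) • v ∈ W (s - 1)) (T : End K V) (d : ℕ) {s : ℤ} {v : V}
    (hv : h1 v = (s : K) • v) (hT : T v ∈ W (s - d)) : Nm G1 T d 0 v = G1.π (s - d) (T v) := by
  rw [Nm_eig G1 T d 0 hv, Finset.sum_eq_single (s - d)]
  · have : s - (s - d) - d = 0 := by ring
    rw [this]
    simp
  · intro t _ ht
    rcases lt_or_gt_of_ne ht with h | h
    · rw [zero_pow (by omega), zero_smul]
    · rw [kill G1 hb hm hW h hT, smul_zero]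
  · intro hs
    have : G1.π (s - d) (T v) = 0 := by
      refine G1.bd (s - d) _ (G1.wt _ _) ?_
      rw [Finset.mem_Icc] at hs
      rcases abs_cases (s - d) with h | h <;> omega
    rw [this, smul_zero]

end LEADx

-- Notation: `π` = projections of `h1`; `Eg h1 s ≤ W s`, `Eg h1 s ⊓ W (s - 1) = ⊥`, `π t` kills `W s` for `s < t`, `v - π s v ∈ W (s - 1)` on `W s` (`desc` with `w = 0`).
-- `N μ = ∑ s, ∑ t, μ ^ (s - t - d).toNat • (π t * T * π s)`, `C μ = ∑ s, μ ^ (-s) • π s` (so `C μ v = μ ^ (-s) • v` on `Eg h1 s`);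
-- check every identity on eigenvectors of `h1` (`Grad.sum`): for `v ∈ Eg h1 s` the terms with `t > s - d` vanish, and `N 0 v = π (s - d) (T v)`
theorem lead (G1 : Grad h1) (c : h1 * h = h * h1) (hb : ∃ s, W s = ⊥) (ht : ∃ s, W s = ⊤)
    (hm : Monotone W) (hW : ∀ s, ∀ v ∈ W s, h1 v - (s : K) • v ∈ W (s - 1)) :
    ∃ C : K → End K V, (∀ μ, μ ≠ 0 → IsUnit (C μ) ∧ h * C μ = C μ * h) ∧
      ∀ (T : End K V) (d : ℕ) (e : ℤ), (∀ s, ∀ v ∈ W s, T v ∈ W (s - d)) → Lo h T e →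
        ∃ N : K → End K V, (∀ (ξ : Dual K V) (v : V), ∃ P : K[X], ∀ μ, ξ (N μ v) = P.eval μ) ∧
          (∀ μ, Lo h (N μ) e) ∧ Lo h1 (N 0) (-d) ∧
          (∀ s, ∀ v ∈ W s, N 0 v - T v ∈ W (s - d - 1)) ∧
          ∀ μ, μ ≠ 0 → μ ^ d • (N μ * C μ) = C μ * T := by
  have c' : ∀ x, h1 (h x) = h (h1 x) := fun x => LinearMap.congr_fun c x
  refine ⟨LEADx.Cm G1, fun μ hμ => ⟨?_, ?_⟩, fun T d e hT hLo => ⟨LEADx.Nm G1 T d, ?_, ?_, ?_, ?_, ?_⟩⟩
  · have h2 := LEADx.Cm_mul G1 (inv_ne_zero hμ)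
    rw [inv_inv] at h2
    exact ⟨⟨_, _, LEADx.Cm_mul G1 hμ, h2⟩, rfl⟩
  · ext v
    simp only [End.mul_apply, LEADx.Cm_apply, map_sum, map_smul, G1.comm0 h c']
  · intro ξ v
    refine ⟨∑ s ∈ Finset.Icc (-(G1.M : ℤ)) G1.M, ∑ t ∈ Finset.Icc (-(G1.M : ℤ)) G1.M,
      X ^ (s - t - d).toNat * Polynomial.C (ξ (G1.π t (T (G1.π s v)))), fun μ => ?_⟩
    simp only [LEADx.Nm_apply, map_sum, map_smul, smul_eq_mul, eval_finsetSum, eval_mul,
      eval_pow, eval_X, eval_C]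
  · intro μ v
    simp only [LEADx.Nm_apply, map_sum, map_smul, Finset.smul_sum, ← Finset.sum_add_distrib]
    refine Finset.sum_congr rfl fun s _ => Finset.sum_congr rfl fun t _ => ?_
    rw [← G1.comm0 h c', hLo, ← G1.comm0 h c', map_add, map_smul, smul_add, smul_comm (e : K)]
  · have h3 : h1 * LEADx.Nm G1 T d 0 =
        LEADx.Nm G1 T d 0 * h1 + ((-(d : ℤ) : ℤ) : K) • LEADx.Nm G1 T d 0 := by
      refine LEADx.ext_eig G1 fun k v hv => ?_
      have h4 := LEADx.Nm_zero G1 hb hm hW T d hv (hT k v (LEADx.eig_le ht hm hW hv))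
      rw [LinearMap.add_apply, End.mul_apply, End.mul_apply, LinearMap.smul_apply, hv, map_smul,
        h4, G1.wt, ← add_smul]
      congr 1
      push_cast
      ring
    intro v
    exact LinearMap.congr_fun h3 v
  · intro s v hv
    have h0 : LEADx.Nm G1 T d 0 v - T v = ∑ k ∈ Finset.Icc (-(G1.M : ℤ)) G1.M,
        (LEADx.Nm G1 T d 0 (G1.π k v) - T (G1.π k v)) := by
      rw [Finset.sum_sub_distrib, ← map_sum, ← map_sum, G1.sum]
    rw [h0]
    refine Submodule.sum_mem _ fun k _ => ?_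
    rcases lt_or_ge s k with h | h
    · rw [LEADx.kill G1 hb hm hW h hv]
      simp
    · have h5 := hT k _ (LEADx.eig_le ht hm hW (G1.wt k v))
      rw [LEADx.Nm_zero G1 hb hm hW T d (G1.wt k v) h5]
      exact hm (by omega : k - d - 1 ≤ s - d - 1) (LEADx.sub_pi G1 hb ht hm hW h5)
  · intro μ hμ
    refine LEADx.ext_eig G1 fun k v hv => ?_
    have h5 := hT k _ (LEADx.eig_le ht hm hW hv)
    rw [LinearMap.smul_apply, End.mul_apply, End.mul_apply, LEADx.Cm_eig G1 μ hv, map_smul,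
      LEADx.Nm_eig G1 T d μ hv, LEADx.Cm_apply, Finset.smul_sum, Finset.smul_sum]
    refine Finset.sum_congr rfl fun t _ => ?_
    rcases lt_or_ge (k - d) t with h | h
    · rw [LEADx.kill G1 hb hm hW h h5]
      simp
    · rw [smul_smul, smul_smul, ← zpow_natCast, ← zpow_natCast, ← zpow_add₀ hμ, ← zpow_add₀ hμ,
        Int.toNat_of_nonneg (by omega)]
      congr 2
      ring

end Pool.Agent.P.MP_cd312e_ag.NL
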