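import Pool.Agent.P.MP_cd312e_ag.NL.Base

/-! Step JM. -/

set_option autoImplicit false
set_option linter.unusedSectionVars false

namespace Pool.Agent.P.MP_cd312e_ag.NL

open Module Polynomial RZW Pool.Agent.P.MP_cd312e_ag.Tr Pool.Agent.P.MP_898f40_nt.Bet

variable {K V : Type} [Field K] [CharZero K] [AddCommGroup V] [Module K V] [FiniteDimensional K V]
  {h h1 h2 x y A A' L Z T : End K V} {W M M' : ℤ → Submodule K V} {Fil : ℤ → ℤ → Submodule K V}
  {q Q : ℕ} {w m : ℤ}

namespace JMx

theorem ext_wt (G : Grad h) {S T : End K V} (H : ∀ (k : ℤ) v, h v = (k : K) • v → S v = T v) :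
    S = T := by
  ext v
  rw [← G.sum v, map_sum, map_sum]
  exact Finset.sum_congr rfl fun k _ => H k _ (G.wt k v)

theorem lo_pow (hx : Lo h x (-2)) (k : ℕ) : Lo h (x ^ k) (-2 * k) := by
  induction k with
  | zero => intro v; simp
  | succ k ih =>
    intro v
    rw [pow_succ', End.mul_apply, End.mul_apply, hx, ih, map_add, map_smul]
    push_cast
    module

theorem tr_sym (G : Grad h) (hx : Lo h x (-2)) (hb : HL h x) {U : End K V} (hU : x * U = U * x)
    (k : ℕ) : LinearMap.trace K V (G.π (-k) * U) = LinearMap.trace K V (G.π k * U) := by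
  have hm : ∀ v ∈ Eg h k, (x ^ k) v ∈ Eg h (-k) := fun v hv => (hb k).mapsTo hv
  have hbij : Function.Bijective ((x ^ k).restrict hm) := by
    constructor
    · intro a b hab
      exact Subtype.ext ((hb k).injOn a.2 b.2 (congrArg Subtype.val hab))
    · intro c
      obtain ⟨a, ha, hac⟩ := (hb k).surjOn c.2
      exact ⟨⟨a, ha⟩, Subtype.ext hac⟩
  let e := LinearEquiv.ofBijective _ hbij
  have hπ : ∀ v, G.π (-k) v ∈ Eg h (-k) := fun v => mem_Eg.2 (G.wt _ v)
  let R : End K V := (Eg h k).subtype ∘ₗ e.symm.toLinearMap ∘ₗ (G.π (-k)).codRestrict _ hπ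
  have he : ∀ a : Eg h k, (e a : V) = (x ^ k) a := fun a => rfl
  have h1 : x ^ k * R = G.π (-k) := by
    ext v
    change (x ^ k) (e.symm ⟨G.π (-k) v, hπ v⟩ : Eg h k) = _
    rw [← he, e.apply_symm_apply]
  have h2 : R * x ^ k = G.π k := by
    ext v
    change (e.symm ⟨G.π (-k) ((x ^ k) v), hπ _⟩ : Eg h k) = G.π k v
    have h3 : (⟨G.π (-k) ((x ^ k) v), hπ _⟩ : Eg h (-k)) = e ⟨G.π k v, mem_Eg.2 (G.wt _ v)⟩ := by
      apply Subtype.ext
      rw [he]
      have := G.comm (x ^ k) (-2 * k) (lo_pow hx k) k v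
      rw [show (k : ℤ) + -2 * k = -k by ring] at this
      exact this
    rw [h3, e.symm_apply_apply]
  have hc : x ^ k * U = U * x ^ k := (Commute.pow_left hU k).eq
  rw [← h1, ← h2, mul_assoc, LinearMap.trace_mul_comm, mul_assoc, mul_assoc, hc]

theorem tr_zero (G : Grad h) (hx : Lo h x (-2)) (hb : HL h x) {U : End K V} (hU : x * U = U * x) :
    LinearMap.trace K V (h * U) = 0 := by
  have hs : ∀ k : ℤ, LinearMap.trace K V (G.π (-k) * U) = LinearMap.trace K V (G.π k * U) := by
    intro k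
    obtain ⟨n, rfl | rfl⟩ := k.eq_nat_or_neg
    · exact tr_sym G hx hb hU n
    · rw [neg_neg]; exact (tr_sym G hx hb hU n).symm
  have hh : h = ∑ k ∈ Finset.Icc (-(G.M : ℤ)) G.M, (k : K) • G.π k := by
    ext v
    conv_lhs => rw [← G.sum v]
    rw [map_sum, LinearMap.sum_apply]
    exact Finset.sum_congr rfl fun k _ => G.wt k v
  have h1 : LinearMap.trace K V (h * U) =
      ∑ k ∈ Finset.Icc (-(G.M : ℤ)) G.M, (k : K) * LinearMap.trace K V (G.π k * U) := by
    conv_lhs => rw [hh]
    rw [Finset.sum_mul, map_sum]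
    exact Finset.sum_congr rfl fun k _ => by rw [smul_mul_assoc, map_smul, smul_eq_mul]
  rw [h1]
  refine Finset.sum_involution (fun k _ => -k) (fun k _ => ?_) (fun k _ hk hk' => ?_)
    (fun k hk => ?_) (fun k _ => neg_neg k)
  · rw [hs]; push_cast; ring
  · have : k = 0 := by omega
    exact hk (by rw [this]; simp)
  · rw [Finset.mem_Icc] at hk ⊢; omega

theorem tr_inj {U : End K V} (hU : ∀ T : End K V, LinearMap.trace K V (T * U) = 0) : U = 0 := by
  ext v
  refine (Module.forall_dual_apply_eq_zero_iff K _).1 fun ξ => ?_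
  have h1 := hU (ξ.smulRight v)
  have h2 : ξ.smulRight v * U = (ξ ∘ₗ U).smulRight v := by ext w; rfl
  rw [h2, LinearMap.trace_smulRight] at h1
  exact h1

theorem tr_surj (φ : Dual K (End K V)) : ∃ U : End K V, ∀ T, φ T = LinearMap.trace K V (T * U) := by
  let Θ : End K V →ₗ[K] Dual K (End K V) :=
    ((LinearMap.mul K (End K V)).flip).compr₂ (LinearMap.trace K V)
  have hΘ : ∀ U T, Θ U T = LinearMap.trace K V (T * U) := fun U T => rfl
  have hi : Function.Injective Θ := by
    rw [← LinearMap.ker_eq_bot, LinearMap.ker_eq_bot']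
    intro U hU
    exact tr_inj fun T => by rw [← hΘ, hU]; rfl
  obtain ⟨U, hU⟩ := (LinearMap.injective_iff_surjective_of_finrank_eq_finrank
    (Subspace.dual_finrank_eq (K := K) (V := End K V)).symm).1 hi φ
  exact ⟨U, fun T => by rw [← hU, hΘ]⟩

theorem ex (G : Grad h) (hx : Lo h x (-2)) (hb : HL h x) : ∃ T : End K V, T * x - x * T = h := by
  let L : End K V →ₗ[K] End K V := LinearMap.mulRight K x - LinearMap.mulLeft K x
  have hL : ∀ T, L T = T * x - x * T := fun T => rfl
  by_contra hne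
  have hn : h ∉ LinearMap.range L := fun ⟨T, hT⟩ => hne ⟨T, hT⟩
  obtain ⟨φ, hφ, hk⟩ := Submodule.exists_le_ker_of_notMem hn
  obtain ⟨U, hU⟩ := tr_surj φ
  have hc : x * U - U * x = 0 := by
    refine tr_inj fun T => ?_
    have h1 : φ (L T) = 0 := hk ⟨T, rfl⟩
    rw [hU, hL, sub_mul, map_sub, mul_assoc x, LinearMap.trace_mul_comm K x] at h1
    rw [mul_sub, map_sub, ← mul_assoc, ← mul_assoc]
    exact h1
  exact hφ (by rw [hU]; exact tr_zero G hx hb (sub_eq_zero.1 hc))

end JMx

-- Jacobson-Morozov for a given grading (`Grad` is in ../Sl2.lean). First `h` lies in the range of `T ↦ T * x - x * T`: otherwise a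
-- functional kills the range and not `h`; it is `T ↦ trace (T * U)` (trace form nondegenerate), so `U` commutes with `x`, and
-- `trace (h * U) = ∑ k * trace (π k * U) = 0` since `trace (π (-k) * U) = trace (π k * U)`: with `R` = inverse of `x ^ k` on `Eg h (-k)` composed
-- with `π (-k)` one has `π (-k) = x ^ k * R`, `R * x ^ k = π k` (`Grad.comm`), and `trace_mul_comm`.
-- Then replace the solution `T` by its part of degree 2, `e = ∑ k, π (k + 2) * T * π k`.
theorem jm (G : Grad h) (hx : Lo h x (-2)) (hb : HL h x) :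
    ∃ e : End K V, e * x - x * e = h ∧ Lo h e 2 := by
  obtain ⟨T, hT⟩ := JMx.ex G hx hb
  let e : End K V := ∑ k ∈ Finset.Icc (-(G.M : ℤ)) G.M, G.π (k + 2) * T * G.π k
  have he : ∀ (k : ℤ) v, h v = (k : K) • v → e v = G.π (k + 2) (T v) := by
    intro k v hv
    by_cases hk : (G.M : ℤ) < |k|
    · rw [G.bd k v hv hk]; simp
    · simp only [e, LinearMap.sum_apply, End.mul_apply]
      rw [Finset.sum_eq_single k, G.same k v hv]
      · intro j _ hj; rw [G.ne j k v hv hj]; simp
      · intro hk'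
        exact absurd (Finset.mem_Icc.2 (abs_le.1 (not_lt.1 hk))) hk'
  refine ⟨e, JMx.ext_wt G fun k v hv => ?_, ?_⟩
  · have hxv : h (x v) = ((k - 2 : ℤ) : K) • x v := by
      rw [hx, hv, map_smul]; push_cast; module
    have h1 := G.comm x (-2) hx (k + 2) (T v)
    rw [show k + 2 + -2 = k by ring] at h1
    have h2 : T (x v) - x (T v) = h v := by rw [← hT]; rfl
    rw [LinearMap.sub_apply, End.mul_apply, End.mul_apply, he _ _ hxv, he _ _ hv, ← h1,
      show k - 2 + 2 = k by ring, ← map_sub, h2, hv, map_smul, G.same k v hv]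
  · have : h * e = e * h + (2 : K) • e := JMx.ext_wt G fun k v hv => by
      rw [LinearMap.add_apply, LinearMap.smul_apply, End.mul_apply, End.mul_apply, hv, map_smul,
        he k v hv, G.wt]
      push_cast; module
    intro v
    have h1 := LinearMap.congr_fun this v
    push_cast
    exact h1

end Pool.Agent.P.MP_cd312e_ag.NL
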