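import Pool.Agent.P.MP_cd312e_ag.NL.Base
import Pool.Agent.P.MP_cd312e_ag.NL.TJM

/-! Step SL. -/

set_option autoImplicit false
set_option linter.unusedSectionVars false

namespace Pool.Agent.P.MP_cd312e_ag.NL

open Module Polynomial RZW Pool.Agent.P.MP_cd312e_ag.Tr Pool.Agent.P.MP_898f40_nt.Bet

variable {K V : Type} [Field K] [CharZero K] [AddCommGroup V] [Module K V] [FiniteDimensional K V]
  {h h1 h2 x y A A' L Z T : End K V} {W M M' : ℤ → Submodule K V} {Fil : ℤ → ℤ → Submodule K V}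
  {q Q : ℕ} {w m : ℤ}

namespace SLx

theorem lo_iff {d : ℤ} : Lo h T d ↔ h * T = T * h + (d : K) • T :=
  ⟨fun H => LinearMap.ext H, fun H v => LinearMap.congr_fun H v⟩

theorem comm {e U : End K V} (h1 : e * x - x * e = h) (h2 : Lo h x (-2)) (h3 : Lo h e 2)
    (h4 : x * U = U * x) (h5 : h * U = U * h) : e * U = U * e := by
  rw [lo_iff] at h2 h3
  push_cast at h2 h3
  refine sub_eq_zero.1 (hw_zero x e (-h) _ (by rw [← h1, neg_sub]) ?_ ?_ 1 ?_ ?_)
  · rw [neg_mul, mul_neg, h2]; module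
  · rw [neg_mul, mul_neg, h3]; module
  · rw [neg_mul, mul_neg, mul_sub, sub_mul, ← mul_assoc, ← mul_assoc, h5, mul_assoc U h, h3,
      mul_assoc e U, ← h5]
    simp only [add_mul, mul_add, mul_assoc, smul_mul_assoc, mul_smul_comm, Nat.cast_one]
    module
  · rw [← h1, sub_mul, mul_sub] at h5
    rw [mul_sub, sub_mul, ← mul_assoc x U, h4, mul_assoc e U x, ← h4]
    nth_rewrite 1 [h4]
    simp only [mul_assoc] at h5 ⊢
    linear_combination (norm := abel) -h5

theorem hl {e : End K V} (h1 : e * x - x * e = h) (h2 : Lo h x (-2)) (h3 : Lo h e 2) :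
    HL h x := by
  intro k
  obtain ⟨M, hM⟩ := exists_bound (-h)
  have hef : ∀ v, x (e v) = e (x v) + (-h) v := fun v => by
    rw [← h1]; simp
  have hhe : ∀ v, (-h) (x v) = x ((-h) v) + (2 : K) • x v := fun v => by
    rw [LinearMap.neg_apply, LinearMap.neg_apply, h2, map_neg]; push_cast; module
  have hf1 : ∀ m : ℤ, ∀ u ∈ (⊤ : Submodule K V), (-h) u = (m : K) • u →
      ∃ u1 ∈ (⊤ : Submodule K V), (-h) u1 = ((m - 2 : ℤ) : K) • u1 ∧
        e u - u1 ∈ (⊥ : Submodule K V) := fun m u _ hu =>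
    ⟨e u, trivial, by
      rw [LinearMap.neg_apply, neg_eq_iff_eq_neg] at hu
      rw [LinearMap.neg_apply, h3, hu, map_neg, map_smul]; push_cast; module, by simp⟩
  have hI : ∀ T : End K V, ∀ u ∈ (⊥ : Submodule K V), T u ∈ (⊥ : Submodule K V) :=
    fun T u hu => by rw [(Submodule.mem_bot K).1 hu, map_zero]; exact zero_mem _
  have hE : ∀ (m : ℤ) v, v ∈ Eg h m ↔ (-h) v = ((-m : ℤ) : K) • v := fun m v => by
    rw [mem_Eg, LinearMap.neg_apply, Int.cast_neg, neg_smul, neg_inj]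
  refine ⟨fun u hu => ?_, fun u hu v hv e' => ?_, fun v hv => ?_⟩
  · refine (hE _ _).2 ((wt_pow x (-h) hhe _ u ((hE _ _).1 hu) k).trans ?_)
    congr 2
    ring
  · exact sub_eq_zero.1 ((Submodule.mem_bot K).1 (lemS_inj x e (-h) M hef hhe hM ⊤ ⊥
      (fun _ _ => trivial) (hI x) hf1 (fun u _ => hI e u) (-k) k (u - v) trivial
      ((hE _ _).1 (sub_mem hu hv)) (by omega) (by rw [map_sub, e', sub_self]; exact zero_mem _)))
  · obtain ⟨u, -, a1, a2⟩ := lemS_surj x e (-h) M hef hhe hM ⊤ ⊥ (fun _ _ => trivial) (hI x) hf1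
      (fun u _ => hI e u) k v trivial (by simpa using (hE _ _).1 hv)
    exact ⟨u, (hE _ _).2 (by simpa using a1), sub_eq_zero.1 ((Submodule.mem_bot K).1 a2)⟩

end SLx

-- `jm` twice gives `e1`, `e2`. `hw_zero` (../Sl2.lean) for the triple (e, f, h) := (x, e1, -h1) kills `e1 * y - y * e1` and `h2 * e1 - e1 * h2`
-- (they commute with `x` and have degree 2 for `h1`); the same with 1 and 2 exchanged. So `(x + y, e1 + e2, -(h1 + h2))` is a triple;
-- `lemS_inj`, `lemS_surj` with `Z = ⊤`, `I = ⊥`, `exists_bound`.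
theorem sl22 (G1 : Grad h1) (G2 : Grad h2) (c : h1 * h2 = h2 * h1) (x1 : Lo h1 x (-2))
    (x2 : Lo h2 x 0) (y1 : Lo h1 y 0) (y2 : Lo h2 y (-2)) (cxy : x * y = y * x) (hx : HL h1 x)
    (hy : HL h2 y) : HL (h1 + h2) (x + y) := by
  obtain ⟨e1, a1, a2⟩ := jm G1 x1 hx
  obtain ⟨e2, b1, b2⟩ := jm G2 y2 hy
  have x2' : h2 * x = x * h2 := by simpa using SLx.lo_iff.1 x2
  have y1' : h1 * y = y * h1 := by simpa using SLx.lo_iff.1 y1
  have c1 := SLx.comm a1 x1 a2 cxy y1'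
  have c2 := SLx.comm a1 x1 a2 x2'.symm c
  have c3 := SLx.comm b1 y2 b2 cxy.symm x2'
  have c4 := SLx.comm b1 y2 b2 y1'.symm c.symm
  rw [SLx.lo_iff] at x1 y2 a2 b2
  refine SLx.hl (e := e1 + e2) ?_ (SLx.lo_iff.2 ?_) (SLx.lo_iff.2 ?_)
  · simp only [add_mul, mul_add]
    rw [← a1, ← b1, c1, c3]
    abel
  · simp only [add_mul, mul_add]
    rw [x1, y2, x2', y1', smul_add]
    abel
  · simp only [add_mul, mul_add]
    rw [a2, b2, c2, c4, smul_add]
    abel

end Pool.Agent.P.MP_cd312e_ag.NL
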