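import Pool.Agent.P.MP_cd312e_ag.NL.Base
import Pool.Agent.P.MP_cd312e_ag.NL.TSL
import Pool.Agent.P.MP_cd312e_ag.NL.TGEN
import Pool.Agent.P.MP_cd312e_ag.NL.TLEAD
import Pool.Agent.P.MP_cd312e_ag.NL.THLL

/-! Step DEF. -/

set_option autoImplicit false
set_option linter.unusedSectionVars false

namespace Pool.Agent.P.MP_cd312e_ag.NL

open Module Polynomial RZW Pool.Agent.P.MP_cd312e_ag.Tr Pool.Agent.P.MP_898f40_nt.Bet

variable {K V : Type} [Field K] [CharZero K] [AddCommGroup V] [Module K V] [FiniteDimensional K V]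
  {h h1 h2 x y A A' L Z T : End K V} {W M M' : ℤ → Submodule K V} {Fil : ℤ → ℤ → Submodule K V}
  {q Q : ℕ} {w m : ℤ}

namespace DEFx

theorem hW_of (hF : ∀ s, RelFil y (W (s - 1)) (W s) (Fil s))
    (hs : ∀ s i, ∀ v ∈ Fil s i, h v - ((s + i : ℤ) : K) • v ∈ Fil s (i - 1)) :
    ∀ s, ∀ v ∈ W s, h v ∈ W s := by
  intro s v hv
  obtain ⟨t, ht⟩ := (hF s).top
  have e : Fil s t = W s := ht t le_rfl
  have a1 := hs s t v (by rw [e]; exact hv)
  have a2 : Fil s (t - 1) ≤ W s := by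
    rw [← e]; exact (hF s).mono (by omega)
  have a3 := (W s).add_mem (a2 a1) ((W s).smul_mem ((s + t : ℤ) : K) hv)
  rwa [sub_add_cancel] at a3

theorem yW_of (hF : ∀ s, RelFil y (W (s - 1)) (W s) (Fil s)) :
    ∀ s, ∀ v ∈ W s, y v ∈ W s := by
  intro s v hv
  obtain ⟨t, ht⟩ := (hF s).top
  have e : Fil s t = W s := ht t le_rfl
  have a1 := (hF s).map t v (by rw [e]; exact hv)
  have a2 : Fil s (t - 2) ≤ W s := by
    rw [← e]; exact (hF s).mono (by omega)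
  exact a2 a1

theorem eg_zero (hW : ∀ s, ∀ v ∈ W s, h1 v - (s : K) • v ∈ W (s - 1)) (hb : ∃ s, W s = ⊥)
    (hm : Monotone W) {s : ℤ} {v : V} (hv : v ∈ Eg h1 s) (hv' : v ∈ W (s - 1)) : v = 0 := by
  obtain ⟨b, hb⟩ := hb
  have a1 : v ∈ W (min b (s - 1)) :=
    desc (h := h1) (M := W) (w := 0) (fun i v hv => by rw [zero_add]; exact hW i v hv) hv hv'
      (min_le_right _ _) (fun k _ hk => by omega)
  have a2 : v ∈ W b := hm (min_le_left _ _) a1
  rwa [hb, Submodule.mem_bot] at a2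

theorem eg_le (hW : ∀ s, ∀ v ∈ W s, h1 v - (s : K) • v ∈ W (s - 1)) (ht : ∃ s, W s = ⊤)
    (hm : Monotone W) {s : ℤ} {v : V} (hv : v ∈ Eg h1 s) : v ∈ W s := by
  obtain ⟨c, hc⟩ := ht
  have a1 : v ∈ W (max c s) := hm (le_max_left _ _) (by rw [hc]; exact Submodule.mem_top)
  exact desc (h := h1) (M := W) (w := 0) (fun i v hv => by rw [zero_add]; exact hW i v hv) hv a1
    (le_max_right _ _) (fun k hk _ => by omega)

theorem comm0 {X Y : End K V} (G1 : Grad h1)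
    (hW : ∀ s, ∀ v ∈ W s, h1 v - (s : K) • v ∈ W (s - 1)) (hb : ∃ s, W s = ⊥)
    (ht : ∃ s, W s = ⊤) (hm : Monotone W) (cxy : x * y = y * x)
    (hx : ∀ s, ∀ v ∈ W s, x v ∈ W (s - 2)) (hy : ∀ s, ∀ v ∈ W s, y v ∈ W s)
    (lX : Lo h1 X (-2)) (lY : Lo h1 Y 0)
    (aX : ∀ s, ∀ v ∈ W s, X v - x v ∈ W (s - 3)) (aY : ∀ s, ∀ v ∈ W s, Y v - y v ∈ W (s - 1)) :
    X * Y = Y * X := by
  have bX : ∀ s, ∀ v ∈ W s, X v ∈ W (s - 2) := by
    intro s v hv
    have := (W (s - 2)).add_mem (hm (show s - 3 ≤ s - 2 by omega) (aX s v hv)) (hx s v hv)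
    rwa [sub_add_cancel] at this
  have bY : ∀ s, ∀ v ∈ W s, Y v ∈ W s := by
    intro s v hv
    have := (W s).add_mem (hm (show s - 1 ≤ s by omega) (aY s v hv)) (hy s v hv)
    rwa [sub_add_cancel] at this
  have key : ∀ (s : ℤ) (v : V), v ∈ Eg h1 s → X (Y v) - Y (X v) = 0 := by
    intro s v hv
    have hw : v ∈ W s := eg_le hW ht hm hv
    have hv0 := mem_Eg.1 hv
    refine eg_zero hW hb hm (s := s - 2) ?_ ?_
    · rw [mem_Eg, map_sub, lX, lY, lY, lX, hv0]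
      simp only [map_add, map_smul, Int.cast_zero, zero_smul, add_zero, Int.cast_sub,
        Int.cast_neg, Int.cast_ofNat]
      module
    · have e1 : X (Y v - y v) ∈ W (s - 2 - 1) :=
        hm (show s - 1 - 2 ≤ s - 2 - 1 by omega) (bX _ _ (aY s v hw))
      have e2 : X (y v) - x (y v) ∈ W (s - 2 - 1) :=
        hm (show s - 3 ≤ s - 2 - 1 by omega) (aX _ _ (hy s v hw))
      have e3 : Y (X v - x v) ∈ W (s - 2 - 1) :=
        hm (show s - 3 ≤ s - 2 - 1 by omega) (bY _ _ (aX s v hw))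
      have e4 : Y (x v) - y (x v) ∈ W (s - 2 - 1) := aY _ _ (hx s v hw)
      have e5 : x (y v) = y (x v) := LinearMap.congr_fun cxy v
      have e6 : X (Y v) - Y (X v) =
          X (Y v - y v) + (X (y v) - x (y v)) - Y (X v - x v) - (Y (x v) - y (x v)) := by
        rw [map_sub, map_sub, e5]; abel
      rw [e6]
      exact sub_mem (sub_mem (add_mem e1 e2) e3) e4
  refine LinearMap.ext fun v => ?_
  rw [← G1.sum v, map_sum, map_sum]
  refine Finset.sum_congr rfl fun k _ => ?_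
  exact sub_eq_zero.1 (key k _ (mem_Eg.2 (G1.wt k v)))

theorem maps_of_comm {C : End K V} (c : h * C = C * h) (j : ℤ) :
    Set.MapsTo C (Eg h j) (Eg h j) := by
  intro v hv
  have hv0 := mem_Eg.1 hv
  have e : h (C v) = C (h v) := LinearMap.congr_fun c v
  exact mem_Eg.2 (by rw [e, hv0, map_smul])

theorem conj_bij {C N : End K V} (hC : IsUnit C) (c : h * C = C * h) (e : N * C = C * T) (k : ℕ)
    (H : Set.BijOn (N ^ k) (Eg h k) (Eg h (-k))) : Set.BijOn (T ^ k) (Eg h k) (Eg h (-k)) := by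
  obtain ⟨u, rfl⟩ := hC
  have c' : h * (↑u⁻¹ : End K V) = ↑u⁻¹ * h := by
    rw [Units.mul_inv_eq_iff_eq_mul, mul_assoc, c, ← mul_assoc, Units.inv_mul, one_mul]
  have b1 : ∀ j : ℤ, Set.BijOn (u : End K V) (Eg h j) (Eg h j) ∧
      Set.BijOn (↑u⁻¹ : End K V) (Eg h j) (Eg h j) := by
    intro j
    have i1 : Set.InvOn (↑u⁻¹ : End K V) (u : End K V) (Eg h j) (Eg h j) :=
      ⟨fun v _ => by rw [← End.mul_apply, Units.inv_mul, End.one_apply],
        fun v _ => by rw [← End.mul_apply, Units.mul_inv, End.one_apply]⟩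
    exact ⟨i1.bijOn (maps_of_comm c j) (maps_of_comm c' j),
      i1.symm.bijOn (maps_of_comm c' j) (maps_of_comm c j)⟩
  have e1 : ∀ n : ℕ, N ^ n * (u : End K V) = u * T ^ n := by
    intro n
    induction n with
    | zero => rw [pow_zero, pow_zero, one_mul, mul_one]
    | succ n ih => rw [pow_succ, pow_succ, mul_assoc, e, ← mul_assoc, ih, mul_assoc]
  have e2 : ((T ^ k : End K V) : V → V) =
      (↑u⁻¹ : End K V) ∘ ((N ^ k : End K V) ∘ (u : End K V)) := by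
    funext v
    have : (↑u⁻¹ : End K V) * (N ^ k * (u : End K V)) = T ^ k := by
      rw [e1, ← mul_assoc, Units.inv_mul, one_mul]
    rw [← this]; rfl
  rw [e2]
  exact (b1 (-k)).2.comp (H.comp (b1 k).1)

theorem lo_add {X Y : End K V} {d : ℤ} (a : Lo h X d) (b : Lo h Y d) : Lo h (X + Y) d := by
  intro v
  simp only [LinearMap.add_apply, map_add, a v, b v, smul_add]
  abel

theorem lo_smul {X : End K V} {d : ℤ} (a : Lo h X d) (t : K) : Lo h (t • X) d := by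
  intro v
  simp only [LinearMap.smul_apply, map_smul, a v, smul_add]
  rw [smul_comm t]

theorem lo_sub {X : End K V} {d e f : ℤ} (a : Lo h X d) (b : Lo h1 X e) (hf : f = d - e) :
    Lo (h - h1) X f := by
  intro v
  simp only [LinearMap.sub_apply, map_sub, a v, b v, hf, Int.cast_sub]
  module

end DEFx

-- `split`, `lead` for `x` (d = 2) and `y` (d = 0) give `Nx`, `Ny`; `Nx 0` and `Ny 0` commute (on `Eg h1 s` the commutator lies in
-- `Eg h1 (s - 2) ⊓ W (s - 3) = ⊥`); `hl_x`, `hl_y`, `sl22` with `h2 = h - h1`. For each `k`: `gen` for `Nx + Ny` gives a good `μ ≠ 0`, conjugation by `C μ`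
-- gives the good parameter `μ⁻¹ ^ 2` for `y + a • x`, `gen` again. For `k > G.M` both eigenspaces vanish (`G.bd`).
theorem deform (G : Grad h) (lx : Lo h x (-2)) (ly : Lo h y (-2)) (cxy : x * y = y * x)
    (hx : IsMonFil x W) (hF : ∀ s, RelFil y (W (s - 1)) (W s) (Fil s))
    (hs : ∀ s i, ∀ v ∈ Fil s i, h v - ((s + i : ℤ) : K) • v ∈ Fil s (i - 1)) :
    {a : K | ¬ HL h (y + a • x)}.Finite := by
  have hhW := DEFx.hW_of hF hs
  have hyW := DEFx.yW_of hF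
  obtain ⟨h1, c, ⟨G1⟩, ⟨G2⟩, hW⟩ := split G hx.bot hx.top hx.mono hhW
  obtain ⟨C, hC, hl⟩ := lead G1 c hx.bot hx.top hx.mono hW
  obtain ⟨Nx, px, lx1, lx2, ax, ex⟩ := hl x 2 (-2) (fun s v hv => hx.map s v hv) lx
  obtain ⟨Ny, py, ly1, ly2, ay, ey⟩ := hl y 0 (-2)
    (fun s v hv => by rw [Nat.cast_zero, sub_zero]; exact hyW s v hv) ly
  have lx3 : Lo h1 (Nx 0) (-2) := lx2
  have ly3 : Lo h1 (Ny 0) 0 := ly2
  have ax3 : ∀ s, ∀ v ∈ W s, Nx 0 v - x v ∈ W (s - 3) := fun s v hv =>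
    hx.mono (show s - ((2 : ℕ) : ℤ) - 1 ≤ s - 3 by omega) (ax s v hv)
  have ay3 : ∀ s, ∀ v ∈ W s, Ny 0 v - y v ∈ W (s - 1) := fun s v hv =>
    hx.mono (show s - ((0 : ℕ) : ℤ) - 1 ≤ s - 1 by omega) (ay s v hv)
  have c0 : Nx 0 * Ny 0 = Ny 0 * Nx 0 :=
    DEFx.comm0 G1 hW hx.bot hx.top hx.mono cxy hx.map hyW lx3 ly3 ax3 ay3
  have H1 : HL h1 (Nx 0) := hl_x G1 hx hW lx3 ax3
  have H2 : HL (h - h1) (Ny 0) :=
    hl_y G G1 c hx.bot hx.top hx.mono hW hF hs ly ly3 (ly1 0) ay3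
  have H3 : HL (h1 + (h - h1)) (Nx 0 + Ny 0) :=
    sl22 G1 G2 (by rw [mul_sub, sub_mul, c]) lx3 (DEFx.lo_sub (lx1 0) lx3 (by omega)) ly3
      (DEFx.lo_sub (ly1 0) ly3 (by omega)) c0 H1 H2
  rw [add_sub_cancel] at H3
  have pf1 : PF fun μ => Nx μ + Ny μ := PF.add px py
  have pf2 : PF fun a : K => y + a • x := by
    have := PF.add (PF.mon (K := K) 0 y) (PF.mon (K := K) 1 x)
    simpa only [pow_zero, one_smul, pow_one] using this
  have fin : ∀ k : ℕ, {a : K | ¬ Set.BijOn ((y + a • x) ^ k) (Eg h k) (Eg h (-k))}.Finite := by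
    intro k
    have f1 := gen G pf1 (fun μ => DEFx.lo_add (lx1 μ) (ly1 μ)) k 0 (H3 k)
    obtain ⟨μ, hμ⟩ := (f1.insert 0).infinite_compl.nonempty
    rw [Set.mem_compl_iff, Set.mem_insert_iff, not_or, Set.mem_ofPred_eq, not_not] at hμ
    obtain ⟨hu, hc⟩ := hC μ hμ.1
    have e : (Nx μ + Ny μ) * C μ = C μ * (y + (μ⁻¹ ^ 2) • x) := by
      have e1 := ey μ hμ.1
      rw [pow_zero, one_smul] at e1
      rw [add_mul, mul_add, e1, mul_smul_comm, ← ex μ hμ.1, smul_smul, ← mul_pow,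
        inv_mul_cancel₀ hμ.1, one_pow, one_smul, add_comm]
    exact gen G pf2 (fun a => DEFx.lo_add ly (DEFx.lo_smul lx a)) k (μ⁻¹ ^ 2)
      (DEFx.conj_bij hu hc e k hμ.2)
  refine ((Set.finite_le_nat G.M).biUnion fun k _ => fin k).subset fun a ha => ?_
  rw [Set.mem_ofPred_eq, HL, not_forall] at ha
  obtain ⟨k, hk⟩ := ha
  refine Set.mem_biUnion (x := k) ?_ hk
  by_contra hlt
  have hlt' : G.M < k := not_le.1 hlt
  have z1 : ∀ v ∈ Eg h k, v = 0 := fun v hv =>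
    G.bd k v (mem_Eg.1 hv) (by rw [Nat.abs_cast]; exact_mod_cast hlt')
  have z2 : ∀ v ∈ Eg h (-k), v = 0 := fun v hv =>
    G.bd (-k) v (mem_Eg.1 hv) (by rw [abs_neg, Nat.abs_cast]; exact_mod_cast hlt')
  refine hk ⟨fun v hv => ?_, fun v hv v' hv' _ => ?_, fun v hv => ?_⟩
  · rw [z1 v hv, map_zero]; exact Submodule.zero_mem _
  · rw [z1 v hv, z1 v' hv']
  · exact ⟨0, Submodule.zero_mem _, by rw [z2 v hv, map_zero]⟩

end Pool.Agent.P.MP_cd312e_ag.NL
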