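import Pool.Agent.P.MP_cd312e_ag.NL.Base
import Pool.Agent.P.MP_cd312e_ag.NL.TSPL

/-! Step PW. -/

set_option autoImplicit false
set_option linter.unusedSectionVars false

namespace Pool.Agent.P.MP_cd312e_ag.NL

open Module Polynomial RZW Pool.Agent.P.MP_cd312e_ag.Tr Pool.Agent.P.MP_898f40_nt.Bet

variable {K V : Type} [Field K] [CharZero K] [AddCommGroup V] [Module K V] [FiniteDimensional K V]
  {h h1 h2 x y A A' L Z T : End K V} {W M M' : ℤ → Submodule K V} {Fil : ℤ → ℤ → Submodule K V}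
  {q Q : ℕ} {w m : ℤ}

namespace PWx

theorem kill_mul (A : End K V) (g g' : ℚ[X]) {v : V}
    (hv : aeval A (g'.map (algebraMap ℚ K)) v = 0) :
    aeval A ((g * g').map (algebraMap ℚ K)) v = 0 := by
  rw [Polynomial.map_mul, map_mul, End.mul_apply, hv, map_zero]

/-- the vectors killed by a rational polynomial whose complex roots satisfy `R` -/
def Kil (A : End K V) (R : ℂ → Prop) : Submodule K V where
  carrier := {v | ∃ g : ℚ[X], g ≠ 0 ∧ aeval A (g.map (algebraMap ℚ K)) v = 0 ∧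
    ∀ z : ℂ, aeval z g = 0 → R z}
  zero_mem' := ⟨1, one_ne_zero, map_zero _, fun z hz => by simp at hz⟩
  smul_mem' := fun c v ⟨g, h0, h1, h2⟩ => ⟨g, h0, by rw [map_smul, h1, smul_zero], h2⟩
  add_mem' := fun ⟨g, h0, h1, h2⟩ ⟨g', h0', h1', h2'⟩ => ⟨g * g', mul_ne_zero h0 h0',
    by rw [map_add, kill_mul A g g' h1', mul_comm, kill_mul A g' g h1, add_zero],
    fun z hz => by
      rw [map_mul, mul_eq_zero] at hz
      exact hz.elim (h2 z) (h2' z)⟩

theorem kil_disj (A : End K V) (R : ℂ → Prop) : Disjoint (Kil A R) (Kil A fun z => ¬ R z) := by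
  refine Submodule.disjoint_def.2 fun v ⟨g, _, h1, h2⟩ ⟨g', _, h1', h2'⟩ => ?_
  have hc : IsCoprime g g' := by
    rw [isCoprime_iff_aeval_ne_zero_of_isAlgClosed ℚ ℂ]
    intro z
    by_contra hc
    push Not at hc
    exact h2' z hc.2 (h2 z hc.1)
  exact mw_coprime (B := ⊥) (fun v hv => by rw [(Submodule.mem_bot K).1 hv, map_zero]; rfl)
    (hc.map (mapRingHom (algebraMap ℚ K))) h1 h1'

theorem kil_map (A : End K V) (R : ℂ → Prop) : ∀ v ∈ Kil A R, A v ∈ Kil A R :=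
  fun v ⟨g, h0, h1, h2⟩ => ⟨g, h0,
    by rw [← mw_aeval (f := A) (g := A) (π := A) fun _ => rfl, h1, map_zero], h2⟩

theorem kil_pure {S : Submodule K V} (hS : ∀ v ∈ S, A v ∈ S)
    (h : S ≤ Kil A fun z => ‖z‖ ^ 2 = (q : ℝ) ^ m) : Pure q m (A.restrict hS) := by
  let b := Module.finBasis K S
  choose g g0 g1 g2 using fun i => h (b i).2
  refine pure_of_poly (g := ∏ i, g i) (Finset.prod_ne_zero_iff.2 fun i _ => g0 i)
    (b.ext fun i => Subtype.ext ?_) fun z hz => ?_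
  · obtain ⟨c, hc⟩ := Finset.dvd_prod_of_mem g (Finset.mem_univ i)
    rw [← mw_restrict hS, hc, mul_comm, kill_mul A c _ (g1 i)]
    rfl
  · rw [map_prod, Finset.prod_eq_zero_iff] at hz
    obtain ⟨i, -, hi⟩ := hz
    exact g2 i z hi

theorem kil_T (hq : 2 ≤ q) (hT : T * A = (q : K) • (A * T)) :
    ∀ v ∈ Kil A fun z => ‖z‖ ^ 2 = (q : ℝ) ^ m,
      T v ∈ Kil A fun z => ‖z‖ ^ 2 = (q : ℝ) ^ (m - 2) := by
  rintro v ⟨g, h0, h1, h2⟩
  have hq0 : (q : ℚ) ≠ 0 := by exact_mod_cast (by omega : q ≠ 0)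
  have hq1 : (q : ℝ) ≠ 0 := by exact_mod_cast (by omega : q ≠ 0)
  refine ⟨g.comp (C (q : ℚ) * X), fun h => ?_, ?_, fun z hz => ?_⟩
  · rcases comp_eq_zero_iff.1 h with h | ⟨-, h⟩
    · exact h0 h
    · have := congrArg (fun P => P.coeff 1) h
      simp only [coeff_C_mul, coeff_X_one, mul_one, coeff_C_succ] at this
      exact hq0 this
  · have h3 := mw_aeval (f := A) (g := (q : K) • A) (π := T)
      (fun u => LinearMap.congr_fun hT u) (g.map (algebraMap ℚ K)) v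
    rw [h1, map_zero] at h3
    rw [Polynomial.map_comp, aeval_comp, h3]
    congr 3
    simp [Algebra.smul_def]
  · rw [aeval_comp] at hz
    have h3 := h2 _ hz
    simp only [map_mul, aeval_X, map_natCast, norm_mul, Complex.norm_natCast] at h3
    rw [zpow_sub₀ hq1, ← h3]
    field_simp

theorem fit {S B : Submodule K V} (hS : ∀ v ∈ S, A v ∈ S) (hB : ∀ v ∈ B, A v ∈ B)
    (hp : Pure q m (sq A hS hB)) : ∀ v ∈ S, ∃ u ∈ S,
      u ∈ Kil A (fun z => ‖z‖ ^ 2 = (q : ℝ) ^ m) ∧ v - u ∈ B := by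
  intro v hv
  obtain ⟨g, g0, g1, g2⟩ := pure_poly hp
  obtain ⟨n, hn⟩ := Filter.eventually_atTop.1
    (aeval (A.restrict hS) (g.map (algebraMap ℚ K))).eventually_codisjoint_ker_pow_range_pow
  obtain ⟨u, hu, _, ⟨t, rfl⟩, e⟩ := Submodule.mem_sup.1
    ((hn (n + 1) n.le_succ).eq_top.ge (Submodule.mem_top (x := ⟨v, hv⟩)))
  refine ⟨u, u.2, ⟨g ^ (n + 1), pow_ne_zero _ g0, ?_, fun z hz => g2 z ?_⟩, ?_⟩
  · rw [mw_restrict hS, Polynomial.map_pow, map_pow, LinearMap.mem_ker.1 hu]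
    rfl
  · rw [map_pow] at hz
    exact eq_zero_of_pow_eq_zero hz
  · have e1 := congrArg Subtype.val e
    rw [Submodule.coe_add, pow_succ', End.mul_apply, ← mw_restrict hS] at e1
    rw [show v - u = _ from sub_eq_of_eq_add' e1.symm]
    exact mw_ind hS hB g1 _ (Subtype.property _)

theorem int_ind (P : ℤ → Prop) (b : ℤ) (h0 : ∀ t ≤ b, P t) (h1 : ∀ t, P (t - 1) → P t) (t : ℤ) :
    P t := by
  rcases le_total t b with h | h
  · exact h0 t h
  · induction t, h using Int.leInduction with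
    | base => exact h0 b le_rfl
    | succ n _ ih => exact h1 _ (by simpa using ih)

theorem fil_ind (hb : ∃ s, W s = ⊥) (hm : Monotone W)
    (hF : ∀ s, RelFil y (W (s - 1)) (W s) (Fil s)) (P : Submodule K V → Prop) (h0 : P ⊥)
    (h1 : ∀ s i, P (Fil s (i - 1)) → P (Fil s i)) : (∀ s, P (W s)) ∧ ∀ s i, P (Fil s i) := by
  have a1 : ∀ s, P (W (s - 1)) → ∀ i, P (Fil s i) := fun s h => by
    obtain ⟨b, hb⟩ := (hF s).bot
    exact int_ind (fun i => P (Fil s i)) b (fun t ht => by rwa [hb t ht]) (h1 s)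
  have a2 : ∀ s, P (W s) := by
    obtain ⟨b, hb⟩ := hb
    refine int_ind (fun s => P (W s)) b (fun t ht => ?_) fun s h => ?_
    · rwa [le_bot_iff.1 ((hm ht).trans hb.le)]
    · obtain ⟨c, hc⟩ := (hF s).top
      exact hc c le_rfl ▸ a1 s h c
  exact ⟨a2, fun s => a1 s (a2 _)⟩

end PWx

-- `χ s i` from `pure_poly` (../Tr/MW.lean), `mw_ind`. The set `S` of the `(s, i)` with `Fil s i ≠ Fil s (i - 1)` is finite. `Ψ = ∏ a ∈ S, χ a` at `A` maps
-- `Fil s i` into `Fil s (i - 1)`, so it is nilpotent (`End.isNilpotent_iff_of_finite`): `Ψ ^ n` kills `A`. `g k = (∏ a ∈ S, a.1 + a.2 = k, χ a) ^ n`, `n ≥ 1`, are pairwise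
-- coprime (`wt_coprime`); `u ≡ k mod g k` for `k` in the image of `S` (`Ideal.exists_forall_sub_mem_ideal`), `h = u(A)`; `∏ (h - k) = 0` gives the grading.
-- `g k` kills `Eg h k` (`∏ g k'`, `k' ≠ k`, is coprime to `u - k`), `pure_of_poly`. If `g k` kills `v` then `g k (q X)` kills `T v`; compare with the components
-- of `T v` (`mw_coprime`)
theorem weights (hq : 2 ≤ q) (hb : ∃ s, W s = ⊥) (ht : ∃ s, W s = ⊤) (hm : Monotone W)
    (hF : ∀ s, RelFil y (W (s - 1)) (W s) (Fil s)) (hA : ∀ s i, ∀ v ∈ Fil s i, A v ∈ Fil s i)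
    (hp : ∀ s i, Pure q (w + s + i) (sq A (hA s i) (hA s (i - 1)))) :
    ∃ h : End K V, Nonempty (Grad h) ∧
      (∀ s i, ∀ v ∈ Fil s i, h v - ((s + i : ℤ) : K) • v ∈ Fil s (i - 1)) ∧
      (∃ hE : ∀ k, ∀ v ∈ Eg h k, A v ∈ Eg h k, ∀ k, Pure q (w + k) (A.restrict (hE k))) ∧
      ∀ T : End K V, T * A = (q : K) • (A * T) → Lo h T (-2) := by
  classical
  let E : ℤ → Submodule K V := fun k => PWx.Kil A fun z => ‖z‖ ^ 2 = (q : ℝ) ^ (w + k)
  have hfit : ∀ s i, ∀ v ∈ Fil s i, ∃ u ∈ Fil s i, u ∈ E (s + i) ∧ v - u ∈ Fil s (i - 1) :=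
    fun s i => by
      have := PWx.fit _ _ (hp s i)
      rwa [add_assoc] at this
  have hind : iSupIndep E := fun k => by
    refine (PWx.kil_disj A _).mono_right (iSup₂_le fun j hj v hv => ?_)
    obtain ⟨g, g0, g1, g2⟩ := hv
    refine ⟨g, g0, g1, fun z hz e => hj ?_⟩
    have h1 : (1 : ℝ) < q := by exact_mod_cast hq
    have := zpow_right_injective₀ (by linarith) h1.ne' ((g2 z hz).symm.trans e)
    omega
  have htop : ⨆ k, E k = ⊤ := by
    obtain ⟨c, hc⟩ := ht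
    refine eq_top_iff.2 (hc ▸ (PWx.fil_ind hb hm hF (fun S => S ≤ ⨆ k, E k) bot_le
      fun s i h v hv => ?_).1 c)
    obtain ⟨u, -, h1, h2⟩ := hfit s i v hv
    simpa using add_mem (h h2) (Submodule.mem_iSup_of_mem _ h1)
  obtain ⟨h, hh⟩ : ∃ h : End K V, ∀ k, ∀ v ∈ E k, h v = (k : K) • v := by
    let e := LinearEquiv.ofBijective (DirectSum.coeLinearMap E)
      (DirectSum.isInternal_submodule_of_iSupIndep_of_iSup_eq_top hind htop)
    refine ⟨DirectSum.toModule K ℤ V (fun k => (k : K) • (E k).subtype) ∘ₗ e.symm.toLinearMap,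
      fun k v hv => ?_⟩
    have : e.symm v = DirectSum.lof K ℤ (fun k => E k) k ⟨v, hv⟩ :=
      e.symm_apply_eq.2 (DirectSum.coeLinearMap_lof E k ⟨v, hv⟩).symm
    rw [LinearMap.comp_apply, LinearEquiv.coe_coe, this, DirectSum.toModule_lof]
    rfl
  obtain ⟨G⟩ := exists_grad h
    (eq_top_iff.2 (htop.ge.trans (iSup_mono fun k v hv => mem_Eg.2 (hh k v hv))))
  have hπ : ∀ k v, G.π k v ∈ E k := fun k v => by
    have hv : v ∈ ⨆ k, E k := htop ▸ Submodule.mem_top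
    induction hv using Submodule.iSup_induction' with
    | mem j v hv =>
      rcases eq_or_ne k j with rfl | hj
      · rwa [G.same k v (hh k v hv)]
      · rw [G.ne k j v (hh j v hv) hj]; exact zero_mem _
    | zero => rw [map_zero]; exact zero_mem _
    | add x y _ _ hx hy => rw [map_add]; exact add_mem hx hy
  have hE : ∀ k, Eg h k ≤ E k := fun k v hv => G.same k v (mem_Eg.1 hv) ▸ hπ k v
  have hst := (PWx.fil_ind hb hm hF (fun S => ∀ v ∈ S, h v ∈ S)
    (fun v hv => by rw [(Submodule.mem_bot K).1 hv, map_zero]; rfl) fun s i ih v hv => by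
      obtain ⟨u, h0, h1, h2⟩ := hfit s i v hv
      have := add_mem ((hF s).mono (by omega : i - 1 ≤ i) (ih _ h2))
        (Submodule.smul_mem _ ((s + i : ℤ) : K) h0)
      rwa [← hh _ u h1, ← map_add, sub_add_cancel] at this).2
  refine ⟨h, ⟨G⟩, fun s i v hv => ?_,
    ⟨fun k v hv => mem_Eg.2 (hh k _ (PWx.kil_map A _ v (hE k hv))), fun k => PWx.kil_pure _ (hE k)⟩,
    fun T hT v => ?_⟩
  · obtain ⟨u, -, h1, h2⟩ := hfit s i v hv
    have := sub_mem (hst s _ _ h2) (Submodule.smul_mem _ ((s + i : ℤ) : K) h2)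
    rwa [map_sub, hh _ u h1, smul_sub, sub_sub_sub_cancel_right] at this
  · have hv : v ∈ ⨆ k, E k := htop ▸ Submodule.mem_top
    induction hv using Submodule.iSup_induction' with
    | mem j v hv =>
      have h1 := PWx.kil_T hq hT v hv
      rw [add_sub_assoc] at h1
      rw [hh _ _ h1, hh _ _ hv, map_smul, ← add_smul]
      congr 1
      push_cast
      ring
    | zero => simp
    | add x y _ _ hx hy => rw [map_add, map_add, hx, hy, map_add, map_add, smul_add]; abel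

end Pool.Agent.P.MP_cd312e_ag.NL
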