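import Pool.Agent.P.MP_cd312e_ag.NL.Base

/-! Step UNI. -/

set_option autoImplicit false
set_option linter.unusedSectionVars false

namespace Pool.Agent.P.MP_cd312e_ag.NL

open Module Polynomial RZW Pool.Agent.P.MP_cd312e_ag.Tr Pool.Agent.P.MP_898f40_nt.Bet

variable {K V : Type} [Field K] [CharZero K] [AddCommGroup V] [Module K V] [FiniteDimensional K V]
  {h h1 h2 x y A A' L Z T : End K V} {W M M' : ℤ → Submodule K V} {Fil : ℤ → ℤ → Submodule K V}
  {q Q : ℕ} {w m : ℤ}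

namespace UNIx

theorem pw (a : IsMonFil L M) (k : ℕ) (t : ℤ) (v : V) (hv : v ∈ M t) :
    (L ^ k) v ∈ M (t - 2 * k) := by
  induction k with
  | zero => simpa using hv
  | succ k ih =>
    rw [pow_succ', End.mul_apply, show t - 2 * ((k + 1 : ℕ) : ℤ) = t - 2 * k - 2 by push_cast; ring]
    exact a.map _ _ ih

theorem step (a : IsMonFil L M) (b : IsMonFil L M') (s : ℕ)
    (e1 : M (s + 1 : ℕ) ≤ M' (s + 1 : ℕ)) (e2 : M (-(s + 1 : ℕ) - 1) ≤ M' (-(s + 1 : ℕ) - 1)) :
    M s ≤ M' s ∧ M (-s - 1) ≤ M' (-s - 1) := by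
  refine ⟨fun v hv => ?_, fun x hx => ?_⟩
  · have h1 := pw a (s + 1) s v hv
    rw [show (s : ℤ) - 2 * ((s + 1 : ℕ) : ℤ) = -((s + 1 : ℕ) : ℤ) - 1 by push_cast; ring] at h1
    have h2 := b.inj (s + 1) v (e1 (a.mono (by push_cast; omega) hv)) (e2 h1)
    rwa [show ((s + 1 : ℕ) : ℤ) - 1 = s by push_cast; ring] at h2
  · obtain ⟨v, hv, h1⟩ := a.surj (s + 1) x
      (by rwa [show -((s + 1 : ℕ) : ℤ) = -s - 1 by push_cast; ring])
    have h2 := pw b (s + 1) _ v (e1 hv)
    rw [show ((s + 1 : ℕ) : ℤ) - 2 * ((s + 1 : ℕ) : ℤ) = -s - 1 by push_cast; ring] at h2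
    have h3 : x - (L ^ (s + 1)) v ∈ M' (-s - 1) := b.mono (by push_cast; omega) (e2 h1)
    simpa using add_mem h3 h2

theorem le (a : IsMonFil L M) (b : IsMonFil L M') (t : ℤ) : M t ≤ M' t := by
  obtain ⟨c, hc⟩ := a.bot
  obtain ⟨d, hd⟩ := b.top
  have key : ∀ n s : ℕ, d ≤ s + n → -(s + n : ℤ) - 1 ≤ c →
      M s ≤ M' s ∧ M (-s - 1) ≤ M' (-s - 1) := by
    intro n
    induction n with
    | zero =>
      intro s h1 h2
      refine ⟨le_top.trans (hd ▸ b.mono (by omega)), le_trans (hc ▸ a.mono (by omega)) bot_le⟩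
    | succ n ih =>
      intro s h1 h2
      obtain ⟨e1, e2⟩ := ih (s + 1) (by push_cast at h1 ⊢; omega) (by push_cast at h2 ⊢; omega)
      exact step a b s e1 e2
  rcases le_or_gt 0 t with h | h
  · obtain ⟨s, rfl⟩ := Int.eq_ofNat_of_zero_le h
    exact (key (d.toNat + (-c).toNat) s (by omega) (by omega)).1
  · obtain ⟨s, hs⟩ := Int.eq_ofNat_of_zero_le (show 0 ≤ -t - 1 by omega)
    rw [show t = -(s : ℤ) - 1 by omega]
    exact (key (d.toNat + (-c).toNat) s (by omega) (by omega)).2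

end UNIx

-- both are equal to `⊤` in high and `⊥` in low degree; descending induction on `s`: `M s = M (-s - 2)` pulled back by `L ^ (s + 1)`,
-- `M (-s - 1) = L ^ (s + 1) (M (s + 1)) + M (-s - 2)`
theorem monFil_unique (a : IsMonFil L M) (b : IsMonFil L M') : M = M' := by
  exact funext fun t => le_antisymm (UNIx.le a b t) (UNIx.le b a t)

theorem monFil_smul (a : IsMonFil L M) {c : K} (hc : c ≠ 0) : IsMonFil (c • L) M := by
  refine ⟨a.mono, a.bot, a.top, fun s v hv => ?_, fun s v hv h1 => ?_, fun s x hx => ?_⟩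
  · exact Submodule.smul_mem _ c (a.map s v hv)
  · rw [_root_.smul_pow, LinearMap.smul_apply, Submodule.smul_mem_iff _ (pow_ne_zero s hc)] at h1
    exact a.inj s v hv h1
  · obtain ⟨v, hv, h1⟩ := a.surj s x hx
    refine ⟨(c ^ s)⁻¹ • v, Submodule.smul_mem _ _ hv, ?_⟩
    rwa [_root_.smul_pow, LinearMap.smul_apply, map_smul, smul_inv_smul₀ (pow_ne_zero s hc)]

-- pull the filtration back along `P`; `Pure.quot` for the map induced by `P'`
theorem monWt_conj {P P' : End K V} (e : P * P' = 1) (e' : P' * P = 1)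
    (H : MonWt q m (P * L * P') (P * A * P')) : MonWt q m L A := by
  have f1 : ∀ v, P (P' v) = v := fun v => LinearMap.congr_fun e v
  have f2 : ∀ v, P' (P v) = v := fun v => LinearMap.congr_fun e' v
  have c1 : ∀ (T : End K V) v, P (T v) = (P * T * P') (P v) := fun T v => by
    rw [End.mul_apply, End.mul_apply, f2]
  obtain ⟨F, hF, hA, hP⟩ := H
  have hA' : ∀ s, ∀ v ∈ (F s).comap P, A v ∈ (F s).comap P := fun s v hv => by
    rw [Submodule.mem_comap, c1]
    exact hA s _ hv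
  refine ⟨fun s => (F s).comap P, ⟨fun s t hst => Submodule.comap_mono (hF.mono hst), ?_, ?_,
    fun s v hv => ?_, fun s v hv h1 => ?_, fun s x hx => ?_⟩, hA', fun s => ?_⟩
  · obtain ⟨s, hs⟩ := hF.bot
    refine ⟨s, eq_bot_iff.2 fun v hv => ?_⟩
    rw [Submodule.mem_comap, hs, Submodule.mem_bot] at hv
    rw [Submodule.mem_bot, ← f2 v, hv, map_zero]
  · obtain ⟨s, hs⟩ := hF.top
    exact ⟨s, by rw [hs, Submodule.comap_top]⟩
  · rw [Submodule.mem_comap, c1]
    exact hF.map s _ hv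
  · rw [Submodule.mem_comap, mw_pow (c1 L)] at h1
    exact hF.inj s _ hv h1
  · obtain ⟨v, hv, h1⟩ := hF.surj s _ hx
    refine ⟨P' v, by rwa [Submodule.mem_comap, f1], ?_⟩
    rwa [Submodule.mem_comap, map_sub, mw_pow (c1 L), f1]
  · have m1 : ∀ t, ∀ v ∈ F t, P' v ∈ (F t).comap P := fun t v hv => by
      rwa [Submodule.mem_comap, f1]
    refine (hP s).quot (Submodule.mapQ _ _ (P'.restrict (m1 s)) fun v hv => m1 (s - 1) v hv)
      (fun x => ?_) fun x => ?_
    · obtain ⟨v, rfl⟩ := Submodule.mkQ_surjective _ x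
      exact ⟨Submodule.mkQ _ ⟨P v, v.2⟩, congrArg (Submodule.mkQ _) (Subtype.ext (f2 v))⟩
    · obtain ⟨v, rfl⟩ := Submodule.mkQ_surjective _ x
      exact congrArg (Submodule.mkQ _) (Subtype.ext (f2 _))

end Pool.Agent.P.MP_cd312e_ag.NL
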