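import Pool.Agent.P.MP_cd312e_ag.NL.Base
import Pool.Agent.P.MP_cd312e_ag.NL.TDEF
import Pool.Agent.P.MP_cd312e_ag.NL.TPW
import Pool.Agent.P.MP_cd312e_ag.NL.TUNI

/-! Step LA. -/

set_option autoImplicit false
set_option linter.unusedSectionVars false

namespace Pool.Agent.P.MP_cd312e_ag.NL

open Module Polynomial RZW Pool.Agent.P.MP_cd312e_ag.Tr Pool.Agent.P.MP_898f40_nt.Bet

variable {K V : Type} [Field K] [CharZero K] [AddCommGroup V] [Module K V] [FiniteDimensional K V]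
  {h h1 h2 x y A A' L Z T : End K V} {W M M' : ℤ → Submodule K V} {Fil : ℤ → ℤ → Submodule K V}
  {q Q : ℕ} {w m : ℤ}

-- `weights`, `deform`; `E a = Eg h (-a)`, `p a = π (-a)`, `M = mwFil p`; `mw_monFil`, `monWt_iff`, `monFil_unique`, `mw_comm`
theorem la (hq : 2 ≤ q) (cxy : x * y = y * x) (hx : IsMonFil x W)
    (hF : ∀ s, RelFil y (W (s - 1)) (W s) (Fil s)) (hA : ∀ s i, ∀ v ∈ Fil s i, A v ∈ Fil s i)
    (hp : ∀ s i, Pure q (w + s + i) (sq A (hA s i) (hA s (i - 1))))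
    (ax : x * A = (q : K) • (A * x)) (ay : y * A = (q : K) • (A * y)) :
    ∃ S : Set K, S.Finite ∧ ∀ a ∉ S, ∃ M, IsMonFil (y + a • x) M ∧
      (∀ s, ∀ v ∈ M s, x v ∈ M (s - 1)) ∧ (∀ s, ∀ v ∈ M s, y v ∈ M (s - 1)) ∧
      ∃ hM : ∀ s, ∀ v ∈ M s, A v ∈ M s, ∀ s, Pure q (w + s) (sq A (hM s) (hM (s - 1))) := by
  obtain ⟨h, ⟨G⟩, hs, ⟨hE, hP⟩, hL⟩ := weights hq hx.bot hx.top hx.mono hF hA hp
  have lx := hL x ax
  have ly := hL y ay
  refine ⟨_, deform G lx ly cxy hx hF hs, fun a ha => ?_⟩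
  have hl : HL h (y + a • x) := not_not.1 ha
  have lN : Lo h (y + a • x) (-2) := fun v => by
    simp only [LinearMap.add_apply, LinearMap.smul_apply, map_add, map_smul, lx v, ly v, smul_add]
    rw [smul_comm a]
    abel
  have h1 : ∀ b : ℤ, LinearMap.IsProj (Eg h (-b)) (G.π (-b)) := fun b =>
    ⟨fun v => mem_Eg.2 (G.wt _ v), fun v hv => G.same _ v (mem_Eg.1 hv)⟩
  have h2 : ∀ b b' : ℤ, b ≠ b' → ∀ v ∈ Eg h (-b'), G.π (-b) v = 0 := fun b b' e v hv =>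
    G.ne _ _ v (mem_Eg.1 hv) (by omega)
  have h3 : ∀ b ∉ Finset.Icc (-(G.M : ℤ)) G.M, Eg h (-b) = ⊥ := fun b hb =>
    eq_bot_iff.2 fun v hv => (Submodule.mem_bot K).2 (G.bd _ v (mem_Eg.1 hv) (by
      rw [Finset.mem_Icc] at hb
      rw [lt_abs]
      omega))
  have h4 : ⨆ b : ℤ, Eg h (-b) = ⊤ := eq_top_iff.2 fun v _ => by
    rw [← G.sum v]
    refine sum_mem fun k _ => Submodule.mem_iSup_of_mem (-k) ?_
    rw [neg_neg]
    exact mem_Eg.2 (G.wt k v)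
  have h5 : ∀ T : End K V, Lo h T (-2) → ∀ b : ℤ, ∀ v ∈ Eg h (-b), T v ∈ Eg h (-(b + 2)) :=
    fun T hT b v hv => mem_Eg.2 (by
      rw [hT v, mem_Eg.1 hv, map_smul, ← add_smul]
      congr 1
      push_cast
      ring)
  have h6 : ∀ r : ℕ, Set.BijOn ((y + a • x) ^ r) (Eg h (-(-(r : ℤ)))) (Eg h (-(r : ℤ))) :=
    fun r => by
      rw [neg_neg]
      exact hl r
  have h7 := (mw_monFil (E := fun b => Eg h (-b)) (p := fun b => G.π (-b)) h1 h2 h3 h4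
    (h5 _ lN)).2 h6
  obtain ⟨M, hM, hS, hW⟩ := (monWt_iff hq w (y + a • x) A (fun b => Eg h (-b))
    (fun b => G.π (-b)) h1 h2 _ h3 h4 (h5 _ lN) (fun b => hE (-b))
    (fun b => by rw [sub_eq_add_neg]; exact hP (-b))).2 h6
  have h8 : ∀ T : End K V, Lo h T (-2) → ∀ s, ∀ v ∈ M s, T v ∈ M (s - 1) := fun T hT s v hv => by
    rw [monFil_unique hM h7] at hv ⊢
    refine mem_mwFil.2 fun b hb => ?_
    have e := mw_comm (E := fun b => Eg h (-b)) (p := fun b => G.π (-b)) h1 h2 h4 (h5 T hT)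
      (b - 2) v
    rw [show b - 2 + 2 = b by ring] at e
    exact e.trans (by rw [mem_mwFil.1 hv (b - 2) (by omega), map_zero])
  exact ⟨M, hM, h8 x lx, h8 y ly, hS, hW⟩

end Pool.Agent.P.MP_cd312e_ag.NL
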