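import Pool.Agent.P.MP_cd312e_ag.NL.Base

/-! Step POW. -/

set_option autoImplicit false
set_option linter.unusedSectionVars false

namespace Pool.Agent.P.MP_cd312e_ag.NL

open Module Polynomial RZW Pool.Agent.P.MP_cd312e_ag.Tr Pool.Agent.P.MP_898f40_nt.Bet

variable {K V : Type} [Field K] [CharZero K] [AddCommGroup V] [Module K V] [FiniteDimensional K V]
  {h h1 h2 x y A A' L Z T : End K V} {W M M' : ℤ → Submodule K V} {Fil : ℤ → ℤ → Submodule K V}
  {q Q : ℕ} {w m : ℤ}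

namespace POWx

theorem root_of_spec {n : Type} [Fintype n] [DecidableEq n] {N : Matrix n n ℂ} {P : ℂ[X]}
    (h : aeval N P = 0) {z : ℂ} (hz : z ∈ spectrum ℂ N) : P.eval z = 0 := by
  have h1 := spectrum.subset_polynomial_aeval N P ⟨z, hz, rfl⟩
  rw [h] at h1
  by_contra hne
  exact h1 (by
    rw [spectrum.mem_resolventSet_iff, sub_zero]
    exact (IsUnit.mk0 _ hne).map (algebraMap ℂ (Matrix n n ℂ)))

theorem exists_pow {g : ℚ[X]} (h0 : g ≠ 0) {b : ℕ} (hb : 0 < b) :
    ∃ G : ℚ[X], G ≠ 0 ∧ g ∣ expand ℚ b G ∧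
      ∀ w : ℂ, aeval w G = 0 → ∃ z : ℂ, aeval z g = 0 ∧ z ^ b = w := by
  let β := (AdjoinRoot.powerBasis h0).basis
  let N := Algebra.leftMulMatrix β (AdjoinRoot.root g)
  refine ⟨(N ^ b).charpoly, (Matrix.charpoly_monic _).ne_zero, ?_, fun w hw => ?_⟩
  · rw [← AdjoinRoot.mk_eq_zero, ← AdjoinRoot.aeval_eq, expand_aeval]
    apply Algebra.leftMulMatrix_injective β
    rw [map_zero, ← aeval_algHom_apply, map_pow]
    exact Matrix.aeval_self_charpoly _
  · have hN : aeval N g = 0 := by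
      rw [aeval_algHom_apply, AdjoinRoot.aeval_eq, AdjoinRoot.mk_self, map_zero]
    let φ := (Algebra.ofId ℚ ℂ).mapMatrix (m := Fin (AdjoinRoot.powerBasis h0).dim)
    have h1 : w ∈ spectrum ℂ (φ N ^ b) := by
      rw [Matrix.mem_spectrum_iff_isRoot_charpoly, ← map_pow]
      have : (φ (N ^ b)).charpoly = (N ^ b).charpoly.map (algebraMap ℚ ℂ) :=
        Matrix.charpoly_map (N ^ b) (algebraMap ℚ ℂ)
      rw [this, IsRoot, eval_map_algebraMap, hw]
    rw [spectrum.map_pow_of_pos _ hb] at h1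
    obtain ⟨z, hz, rfl⟩ := h1
    refine ⟨z, ?_, rfl⟩
    rw [← eval_map_algebraMap]
    refine root_of_spec ?_ hz
    rw [aeval_map_algebraMap, aeval_algHom_apply, hN, map_zero]

theorem coe_pow {S : Submodule K V} (hS : ∀ v ∈ S, A v ∈ S) (n : ℕ) (v : S) :
    ((A.restrict hS ^ n) v).1 = (A ^ n) v.1 :=
  mw_pow (f := A.restrict hS) (g := A) (π := S.subtype) (fun _ => rfl) n v

end POWx

-- `g` from `pure_poly`; `pure_of_poly` for the characteristic (or minimal) polynomial of the `b`-th power of the root in `AdjoinRoot g`, or of the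
-- companion matrix; its complex roots are the `b`-th powers of the roots of `g` (`spectrum.map_pow_of_pos` over `ℂ`)
theorem pure_pow (H : Pure q m A) (b : ℕ) : Pure q (m * b) (A ^ b) := by
  rcases Nat.eq_zero_or_pos b with rfl | hb
  · refine pure_of_poly (g := X - C 1) (X_sub_C_ne_zero 1) (by simp) fun z hz => ?_
    have : z = 1 := by simpa [sub_eq_zero] using hz
    simp [this]
  obtain ⟨g, h0, h1, h2⟩ := pure_poly H
  obtain ⟨G, G0, ⟨c, hc⟩, G2⟩ := POWx.exists_pow h0 hb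
  refine pure_of_poly G0 ?_ fun w hw => ?_
  · rw [← expand_aeval, ← map_expand, hc, Polynomial.map_mul, map_mul, h1, zero_mul]
  · obtain ⟨z, hz, rfl⟩ := G2 w hw
    rw [norm_pow, ← pow_mul, mul_comm b 2, pow_mul, h2 z hz, zpow_mul, zpow_natCast]

-- `g.comp (X ^ a)`
theorem pure_of_pow {a b : ℕ} (ha : a ≠ 0) (hQ : Q ^ a = q ^ b) (H : Pure q (m * b) (A ^ a)) :
    Pure Q m A := by
  obtain ⟨g, h0, h1, h2⟩ := pure_poly H
  refine pure_of_poly (g := expand ℚ a g) ((expand_ne_zero (Nat.pos_of_ne_zero ha)).2 h0) ?_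
    fun w hw => ?_
  · rw [map_expand, expand_aeval, h1]
  · rw [expand_aeval] at hw
    have h3 := h2 _ hw
    have h4 : (Q : ℝ) ^ a = (q : ℝ) ^ b := by exact_mod_cast hQ
    rw [norm_pow, ← pow_mul, mul_comm a 2, pow_mul, mul_comm m, zpow_mul, zpow_natCast, ← h4,
      ← zpow_natCast (Q : ℝ) a, ← zpow_mul, mul_comm, zpow_mul, zpow_natCast] at h3
    exact (pow_left_inj₀ (by positivity) (by positivity) ha).1 h3

-- `exp Z v - v ∈ M (s - 1)` on `M s` (`IsNilpotent.exp_eq_sum`, `ratCast_smul_eq ℚ K`), so `sq A' ^ a = sq A ^ b`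
theorem pure_fin [Module ℚ (End K V)] {a b : ℕ} (ha : a ≠ 0) (hQ : Q ^ a = q ^ b) (hZ : IsNilpotent Z)
    (hM : ∀ s, ∀ v ∈ M s, Z v ∈ M (s - 1)) (hm : Monotone M)
    (e : A' ^ a = IsNilpotent.exp Z * A ^ b) (hA : ∀ s, ∀ v ∈ M s, A v ∈ M s)
    (hA' : ∀ s, ∀ v ∈ M s, A' v ∈ M s) (s : ℤ) (H : Pure q m (sq A (hA s) (hA (s - 1)))) :
    Pure Q m (sq A' (hA' s) (hA' (s - 1))) := by
  have hZp : ∀ i : ℕ, ∀ v ∈ M s, (Z ^ (i + 1)) v ∈ M (s - 1) := by
    intro i v hv
    induction i with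
    | zero => simpa using hM s v hv
    | succ i ih =>
      rw [pow_succ', End.mul_apply]
      exact hm (by omega : s - 1 - 1 ≤ s - 1) (hM _ _ ih)
  have hE : ∀ v ∈ M s, IsNilpotent.exp Z v - v ∈ M (s - 1) := by
    intro v hv
    obtain ⟨k, hk⟩ := hZ
    have hk' : Z ^ (k + 1) = 0 := by rw [pow_succ, hk, zero_mul]
    rw [IsNilpotent.exp_eq_sum hk', Finset.sum_range_succ']
    simp only [Nat.factorial_zero, Nat.cast_one, inv_one, pow_zero, one_smul, LinearMap.add_apply,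
      End.one_apply, add_sub_cancel_right, LinearMap.sum_apply]
    refine Submodule.sum_mem _ fun i _ => ?_
    have := ratCast_smul_eq ℚ K (((i + 1).factorial : ℚ)⁻¹) (Z ^ (i + 1))
    rw [Rat.cast_id] at this
    rw [this, LinearMap.smul_apply]
    exact Submodule.smul_mem _ _ (hZp i v hv)
  refine pure_of_pow ha hQ ?_
  have key : sq A' (hA' s) (hA' (s - 1)) ^ a = sq A (hA s) (hA (s - 1)) ^ b := by
    refine LinearMap.ext fun u => ?_
    obtain ⟨v, rfl⟩ := Submodule.mkQ_surjective _ u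
    rw [← mw_pow (f := A'.restrict (hA' s)) (g := sq A' (hA' s) (hA' (s - 1)))
        (π := Submodule.mkQ _) (fun _ => rfl) a v,
      ← mw_pow (f := A.restrict (hA s)) (g := sq A (hA s) (hA (s - 1)))
        (π := Submodule.mkQ _) (fun _ => rfl) b v,
      Submodule.mkQ_apply, Submodule.mkQ_apply, Submodule.Quotient.eq, Submodule.mem_comap,
      map_sub, Submodule.subtype_apply, Submodule.subtype_apply, POWx.coe_pow, e, End.mul_apply,
      ← POWx.coe_pow (hA s) b v]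
    exact hE _ (Subtype.property _)
  rw [key]
  exact pure_pow H b

end Pool.Agent.P.MP_cd312e_ag.NL
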